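import Pool.Agent.H94.C1.Targets

/-!
# Derivatives of waves (row DIF)
-/

set_option autoImplicit false

namespace Pool.Agent.H19.C1

open MeasureTheory Set Filter Topology Pool.Agent.H94.C1 Pool.Agent.H82.KL
open scoped ENNReal NNReal

lemma e_cont : Continuous e := by
  unfold e
  fun_prop

lemma e_norm (x : ℝ) : ‖e x‖ = 1 := by
  rw [e]
  exact Complex.norm_exp_ofReal_mul_I _

lemma e_hasDerivAt (x : ℝ) : HasDerivAt e (2 * (Real.pi : ℂ) * Complex.I * e x) x := by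
  have h1 : HasDerivAt (fun x : ℝ => (((2 * Real.pi * x : ℝ) : ℂ) * Complex.I))
      (2 * (Real.pi : ℂ) * Complex.I) x := by
    have h2 : HasDerivAt (fun x : ℝ => 2 * Real.pi * x) (2 * Real.pi) x := by
      simpa using (hasDerivAt_id x).const_mul (2 * Real.pi)
    have h3 := (h2.ofReal_comp).mul_const Complex.I
    refine h3.congr_deriv ?_
    push_cast
    ring
  have h4 := h1.cexp
  refine h4.congr_deriv ?_
  rw [e]
  ring

section

variable {d : ℕ}

/-- the phase as a linear form in the space-time point -/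
noncomputable def Lx (ξ : EE d) : EE d × ℝ →L[ℝ] ℝ :=
  (innerSL ℝ ξ).comp (ContinuousLinearMap.fst ℝ (EE d) ℝ) +
    ‖ξ‖ • ContinuousLinearMap.snd ℝ (EE d) ℝ

lemma Lx_apply (ξ : EE d) (z : EE d × ℝ) : Lx ξ z = inner ℝ z.1 ξ + z.2 * ‖ξ‖ := by
  simp only [Lx, _root_.add_apply, ContinuousLinearMap.comp_apply,
    ContinuousLinearMap.coe_fst', _root_.smul_apply, ContinuousLinearMap.coe_snd',
    innerSL_apply_apply, smul_eq_mul]
  rw [real_inner_comm, mul_comm]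

lemma Lx_cont : Continuous fun ξ : EE d => Lx ξ := by
  unfold Lx
  have h1 : Continuous fun ξ : EE d => innerSL ℝ ξ := (innerSL ℝ).continuous
  exact (h1.clm_comp continuous_const).add (continuous_norm.smul continuous_const)

lemma Lx_norm (ξ : EE d) : ‖Lx ξ‖ ≤ 2 * ‖ξ‖ := by
  refine ContinuousLinearMap.opNorm_le_bound _ (by positivity) fun v => ?_
  rw [Lx_apply, Real.norm_eq_abs]
  have h1 := abs_real_inner_le_norm v.1 ξ
  have h2 : |v.2 * ‖ξ‖| = ‖v.2‖ * ‖ξ‖ := by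
    rw [abs_mul, abs_norm, Real.norm_eq_abs]
  have h3 := norm_fst_le v
  have h4 := norm_snd_le v
  calc |inner ℝ v.1 ξ + v.2 * ‖ξ‖| ≤ |inner ℝ v.1 ξ| + |v.2 * ‖ξ‖| := abs_add_le _ _
    _ ≤ ‖v.1‖ * ‖ξ‖ + ‖v.2‖ * ‖ξ‖ := add_le_add h1 h2.le
    _ ≤ ‖v‖ * ‖ξ‖ + ‖v‖ * ‖ξ‖ := by gcongr
    _ = 2 * ‖ξ‖ * ‖v‖ := by ring

/-- the derivative of the integrand -/
noncomputable def Fx (b : EE d → ℂ) (z : EE d × ℝ) (ξ : EE d) : EE d × ℝ →L[ℝ] ℂ :=
  (Lx ξ).smulRight (2 * (Real.pi : ℂ) * Complex.I * (e (inner ℝ z.1 ξ + z.2 * ‖ξ‖) * b ξ))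

lemma Fx_hasFDerivAt (b : EE d → ℂ) (z : EE d × ℝ) (ξ : EE d) :
    HasFDerivAt (fun z : EE d × ℝ => e (inner ℝ z.1 ξ + z.2 * ‖ξ‖) * b ξ) (Fx b z ξ) z := by
  have h1 : HasFDerivAt (fun z : EE d × ℝ => Lx ξ z) (Lx ξ) z := (Lx ξ).hasFDerivAt
  have h2 := (e_hasDerivAt (Lx ξ z)).hasFDerivAt.comp z h1
  have h3 := h2.mul_const (b ξ)
  have h4 : (fun z : EE d × ℝ => e (inner ℝ z.1 ξ + z.2 * ‖ξ‖) * b ξ) =
      fun z => (e ∘ fun z : EE d × ℝ => Lx ξ z) z * b ξ := by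
    funext w
    simp only [Function.comp_apply, Lx_apply]
  rw [h4]
  refine h3.congr_fderiv ?_
  ext v <;>
  · simp only [Fx, Lx_apply, ContinuousLinearMap.comp_apply, ContinuousLinearMap.smulRight_apply,
      _root_.smul_apply, ContinuousLinearMap.toSpanSingleton_apply, smul_eq_mul,
      Complex.real_smul, ContinuousLinearMap.comp_apply]
    ring

lemma Fx_norm (b : EE d → ℂ) (z : EE d × ℝ) (ξ : EE d) :
    ‖Fx b z ξ‖ ≤ 4 * Real.pi * (‖ξ‖ * ‖b ξ‖) := by
  have h1 : ‖2 * (Real.pi : ℂ) * Complex.I‖ = 2 * Real.pi := by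
    rw [norm_mul, norm_mul, Complex.norm_I, Complex.norm_real, Real.norm_eq_abs,
      abs_of_pos Real.pi_pos]
    norm_num
  have h0 : ‖2 * (Real.pi : ℂ) * Complex.I * (e (inner ℝ z.1 ξ + z.2 * ‖ξ‖) * b ξ)‖ =
      2 * Real.pi * ‖b ξ‖ := by
    rw [norm_mul _ (e (inner ℝ z.1 ξ + z.2 * ‖ξ‖) * b ξ), norm_mul (e _), e_norm, one_mul, h1]
  rw [Fx, ContinuousLinearMap.norm_smulRight_apply, h0]
  calc ‖Lx ξ‖ * (2 * Real.pi * ‖b ξ‖) ≤ (2 * ‖ξ‖) * (2 * Real.pi * ‖b ξ‖) := by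
        gcongr
        exact Lx_norm ξ
    _ = 4 * Real.pi * (‖ξ‖ * ‖b ξ‖) := by ring

lemma Fx_cont1 (b : EE d → ℂ) (hb : Continuous b) (z : EE d × ℝ) :
    Continuous fun ξ : EE d => Fx b z ξ := by
  have h1 : Continuous fun ξ : EE d => e (inner ℝ z.1 ξ + z.2 * ‖ξ‖) :=
    e_cont.comp (by fun_prop)
  have h2 : Continuous fun ξ : EE d =>
      2 * (Real.pi : ℂ) * Complex.I * (e (inner ℝ z.1 ξ + z.2 * ‖ξ‖) * b ξ) :=
    continuous_const.mul (h1.mul hb)
  have h3 : Continuous fun ξ : EE d =>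
      ContinuousLinearMap.smulRightL ℝ (EE d × ℝ) ℂ (Lx ξ) :=
    (ContinuousLinearMap.smulRightL ℝ (EE d × ℝ) ℂ).continuous.comp Lx_cont
  exact h3.clm_apply h2

lemma Fx_cont2 (b : EE d → ℂ) (ξ : EE d) :
    Continuous fun z : EE d × ℝ => Fx b z ξ := by
  have h1 : Continuous fun z : EE d × ℝ => e (inner ℝ z.1 ξ + z.2 * ‖ξ‖) :=
    e_cont.comp (by fun_prop)
  have h2 : Continuous fun z : EE d × ℝ =>
      2 * (Real.pi : ℂ) * Complex.I * (e (inner ℝ z.1 ξ + z.2 * ‖ξ‖) * b ξ) :=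
    continuous_const.mul (h1.mul continuous_const)
  exact (ContinuousLinearMap.smulRightL ℝ (EE d × ℝ) ℂ (Lx ξ)).continuous.comp h2

lemma int_bound (b : EE d → ℂ) (hb : Continuous b) (hc : HasCompactSupport b) :
    Integrable fun ξ => 4 * Real.pi * (‖ξ‖ * ‖b ξ‖) := by
  apply Continuous.integrable_of_hasCompactSupport
  · fun_prop
  · have h1 : HasCompactSupport fun ξ => ‖ξ‖ * ‖b ξ‖ := by
      have h2 : HasCompactSupport fun ξ => ‖b ξ‖ := hc.norm
      exact h2.mul_left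
    exact h1.mul_left

lemma U_hasFDerivAt (b : EE d → ℂ) (hb : Continuous b) (hc : HasCompactSupport b)
    (z : EE d × ℝ) : HasFDerivAt (U b) (∫ ξ, Fx b z ξ) z := by
  have hmeas : ∀ z : EE d × ℝ, Continuous fun ξ : EE d => e (inner ℝ z.1 ξ + z.2 * ‖ξ‖) * b ξ := by
    intro z
    have h1 : Continuous fun ξ : EE d => e (inner ℝ z.1 ξ + z.2 * ‖ξ‖) :=
      e_cont.comp (by fun_prop)
    exact h1.mul hb
  unfold U
  refine hasFDerivAt_integral_of_dominated_of_fderiv_le (F' := Fx b)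
    (bound := fun ξ => 4 * Real.pi * (‖ξ‖ * ‖b ξ‖)) (s := univ) univ_mem ?_ ?_ ?_ ?_ ?_ ?_
  · exact Eventually.of_forall fun z => (hmeas z).aestronglyMeasurable
  · apply (hmeas z).integrable_of_hasCompactSupport
    exact hc.mul_left
  · exact (Fx_cont1 b hb z).aestronglyMeasurable
  · exact Eventually.of_forall fun ξ z _ => Fx_norm b z ξ
  · exact int_bound b hb hc
  · exact Eventually.of_forall fun ξ z _ => Fx_hasFDerivAt b z ξ

lemma Fx_int_cont (b : EE d → ℂ) (hb : Continuous b) (hc : HasCompactSupport b) :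
    Continuous fun z : EE d × ℝ => ∫ ξ, Fx b z ξ := by
  refine continuous_of_dominated (bound := fun ξ => 4 * Real.pi * (‖ξ‖ * ‖b ξ‖)) ?_ ?_ ?_ ?_
  · exact fun z => (Fx_cont1 b hb z).aestronglyMeasurable
  · intro z
    exact Eventually.of_forall fun ξ => Fx_norm b z ξ
  · exact int_bound b hb hc
  · exact Eventually.of_forall fun ξ => Fx_cont2 b ξ

lemma Fx_integrable (b : EE d → ℂ) (hb : Continuous b) (hc : HasCompactSupport b)
    (z : EE d × ℝ) : Integrable fun ξ => Fx b z ξ := by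
  refine (int_bound b hb hc).mono' ?_ (Eventually.of_forall fun ξ => Fx_norm b z ξ)
  exact (Fx_cont1 b hb z).aestronglyMeasurable

lemma U_integrable (b : EE d → ℂ) (hb : Continuous b) (hc : HasCompactSupport b)
    (z : EE d × ℝ) : Integrable fun ξ : EE d => e (inner ℝ z.1 ξ + z.2 * ‖ξ‖) * b ξ := by
  have h1 : Continuous fun ξ : EE d => e (inner ℝ z.1 ξ + z.2 * ‖ξ‖) :=
    e_cont.comp (by fun_prop)
  exact (h1.mul hb).integrable_of_hasCompactSupport hc.mul_left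

end

theorem pf_DIF : T_DIF := by
  intro d b hb
  have hbc : Continuous b := hb.1.continuous
  have hcs : HasCompactSupport b := hb.2.1
  have hfd : ∀ z, fderiv ℝ (U b) z = ∫ ξ, Fx b z ξ := fun z => (U_hasFDerivAt b hbc hcs z).fderiv
  refine ⟨?_, ?_⟩
  · rw [contDiff_one_iff_fderiv]
    refine ⟨fun z => (U_hasFDerivAt b hbc hcs z).differentiableAt, ?_⟩
    have h1 : fderiv ℝ (U b) = fun z => ∫ ξ, Fx b z ξ := funext hfd
    rw [h1]
    exact Fx_int_cont b hbc hcs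
  · intro z v
    rw [hfd, ContinuousLinearMap.integral_apply (Fx_integrable b hbc hcs z)]
    have hmcj : ∀ j : Fin d, Integrable fun ξ : EE d =>
        e (inner ℝ z.1 ξ + z.2 * ‖ξ‖) * mc j b ξ := by
      intro j
      apply U_integrable
      · unfold mc
        fun_prop
      · exact hcs.mul_left
    have hmn : Integrable fun ξ : EE d => e (inner ℝ z.1 ξ + z.2 * ‖ξ‖) * mn b ξ := by
      apply U_integrable
      · unfold mn
        fun_prop
      · exact hcs.mul_left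
    have h1 : ∀ ξ : EE d, Fx b z ξ v = 2 * (Real.pi : ℂ) * Complex.I *
        ((∑ j, ((v.1 j : ℝ) : ℂ) * (e (inner ℝ z.1 ξ + z.2 * ‖ξ‖) * mc j b ξ)) +
          ((v.2 : ℝ) : ℂ) * (e (inner ℝ z.1 ξ + z.2 * ‖ξ‖) * mn b ξ)) := by
      intro ξ
      have h2 : inner ℝ v.1 ξ = ∑ j, v.1 j * ξ j := by
        rw [PiLp.inner_apply]
        refine Finset.sum_congr rfl fun j _ => ?_
        simp [mul_comm]
      rw [Fx, ContinuousLinearMap.smulRight_apply, Lx_apply, h2, Complex.real_smul]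
      simp only [mc, mn]
      push_cast
      have h3 : (∑ j, ((v.1 j : ℝ) : ℂ) * (e (inner ℝ z.1 ξ + z.2 * ‖ξ‖) *
          (((ξ j : ℝ) : ℂ) * b ξ))) = (∑ j, ((v.1 j : ℝ) : ℂ) * ((ξ j : ℝ) : ℂ)) *
            (e (inner ℝ z.1 ξ + z.2 * ‖ξ‖) * b ξ) := by
        rw [Finset.sum_mul]
        refine Finset.sum_congr rfl fun j _ => ?_
        ring
      rw [h3]
      ring
    simp only [h1]
    rw [integral_const_mul, integral_add, integral_finsetSum]
    · simp only [integral_const_mul]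
      rfl
    · intro j _
      exact (hmcj j).const_mul _
    · exact integrable_finsetSum _ fun j _ => (hmcj j).const_mul _
    · exact hmn.const_mul _

end Pool.Agent.H19.C1
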