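import Pool.Agent.H94.C1.Targets

/-!
# The flux through graphs: abstract form (for row FLA)
-/

set_option autoImplicit false

namespace Pool.Agent.H19.C1

open MeasureTheory Set Filter Topology Pool.Agent.H94.C1 Pool.Agent.H82.KL
open scoped ENNReal NNReal

section

variable {d : ℕ}

/-- the decaying weight -/
noncomputable def wd (x : EE d) : ℝ := ((1 + ‖x‖) ^ (d + 1))⁻¹

lemma wd_nonneg (x : EE d) : 0 ≤ wd x := by unfold wd; positivity

lemma wd_le_one (x : EE d) : wd x ≤ 1 := by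
  unfold wd
  exact inv_le_one_of_one_le₀ (one_le_pow₀ (by linarith [norm_nonneg x]))

lemma wd_integrable : Integrable (wd : EE d → ℝ) := by
  have h := integrable_one_add_norm (μ := (volume : Measure (EE d))) (r := (d : ℝ) + 1)
    (by rw [finrank_euclideanSpace, Fintype.card_fin]; linarith)
  refine h.congr (Eventually.of_forall fun x => ?_)
  have h1 : (0 : ℝ) ≤ 1 + ‖x‖ := by positivity
  simp only [wd]
  rw [Real.rpow_neg h1, ← Real.rpow_natCast (1 + ‖x‖) (d + 1)]
  push_cast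
  rfl

/-- `C¹` functions of space-time which decay with their derivatives in space, locally uniformly in
time -/
def Dcl (f : EE d × ℝ → ℝ) : Prop := ContDiff ℝ 1 f ∧ ∀ B : ℝ, ∃ C : ℝ, 0 ≤ C ∧
  ∀ (x : EE d) (t : ℝ), |t| ≤ B → |f (x, t)| ≤ C * wd x ∧ ‖fderiv ℝ f (x, t)‖ ≤ C * wd x

lemma Dcl_add {f g : EE d × ℝ → ℝ} (hf : Dcl f) (hg : Dcl g) : Dcl fun z => f z + g z := by
  refine ⟨hf.1.add hg.1, fun B => ?_⟩
  obtain ⟨C, hC, h1⟩ := hf.2 B
  obtain ⟨C', hC', h2⟩ := hg.2 B
  refine ⟨C + C', by positivity, fun x t ht => ?_⟩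
  obtain ⟨a1, a2⟩ := h1 x t ht
  obtain ⟨b1, b2⟩ := h2 x t ht
  constructor
  · exact (abs_add_le _ _).trans (by linarith [add_mul C C' (wd x)])
  · have h3 : fderiv ℝ (fun z => f z + g z) (x, t) = fderiv ℝ f (x, t) + fderiv ℝ g (x, t) :=
      fderiv_fun_add (hf.1.differentiable one_ne_zero _) (hg.1.differentiable one_ne_zero _)
    rw [h3]
    exact (norm_add_le _ _).trans (by linarith [add_mul C C' (wd x)])

lemma Dcl_const_mul {f : EE d × ℝ → ℝ} (c : ℝ) (hf : Dcl f) : Dcl fun z => c * f z := by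
  refine ⟨contDiff_const.mul hf.1, fun B => ?_⟩
  obtain ⟨C, hC, h1⟩ := hf.2 B
  refine ⟨|c| * C, by positivity, fun x t ht => ?_⟩
  obtain ⟨a1, a2⟩ := h1 x t ht
  constructor
  · rw [abs_mul, mul_assoc]
    exact mul_le_mul_of_nonneg_left a1 (abs_nonneg _)
  · have h3 : fderiv ℝ (fun z => c * f z) (x, t) = c • fderiv ℝ f (x, t) :=
      fderiv_const_mul (hf.1.differentiable one_ne_zero _) c
    rw [h3, norm_smul, Real.norm_eq_abs, mul_assoc]
    exact mul_le_mul_of_nonneg_left a2 (abs_nonneg _)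

lemma Dcl_zero : Dcl fun _ : EE d × ℝ => (0 : ℝ) := by
  refine ⟨contDiff_const, fun B => ⟨0, le_rfl, fun x t _ => ?_⟩⟩
  constructor
  · simp
  · simp

lemma Dcl_sum {ι : Type} (s : Finset ι) (f : ι → EE d × ℝ → ℝ) (hf : ∀ i ∈ s, Dcl (f i)) :
    Dcl fun z => ∑ i ∈ s, f i z := by
  classical
  induction s using Finset.induction_on with
  | empty => simpa using Dcl_zero
  | insert a s ha ih =>
    have h1 := Dcl_add (hf a (Finset.mem_insert_self _ _))
      (ih fun i hi => hf i (Finset.mem_insert_of_mem hi))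
    have h2 : (fun z => ∑ i ∈ insert a s, f i z) = fun z => f a z + ∑ i ∈ s, f i z := by
      funext z
      rw [Finset.sum_insert ha]
    rw [h2]
    exact h1

/-- the flux -/
noncomputable def gf (E : EE d × ℝ → ℝ) (P : Fin d → EE d × ℝ → ℝ) (φ : EE d → ℝ) (s : ℝ)
    (x : EE d) : ℝ :=
  E (x, s * φ x) + s * ∑ j, fderiv ℝ φ x (ei j) * P j (x, s * φ x)

/-- the `s`-derivative of the flux -/
noncomputable def gd (E : EE d × ℝ → ℝ) (P : Fin d → EE d × ℝ → ℝ) (φ : EE d → ℝ) (s : ℝ)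
    (x : EE d) : ℝ :=
  fderiv ℝ E (x, s * φ x) (0, φ x) + (∑ j, fderiv ℝ φ x (ei j) * P j (x, s * φ x) +
    s * ∑ j, fderiv ℝ φ x (ei j) * fderiv ℝ (P j) (x, s * φ x) (0, φ x))

lemma curve_deriv {f : EE d × ℝ → ℝ} (hf : ContDiff ℝ 1 f) (x : EE d) (c s : ℝ) :
    HasDerivAt (fun s : ℝ => f (x, s * c)) (fderiv ℝ f (x, s * c) (0, c)) s := by
  have h1 : HasDerivAt (fun s : ℝ => (x, s * c)) ((0 : EE d), c) s :=
    (hasDerivAt_const s x).prodMk (by simpa using (hasDerivAt_id s).mul_const c)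
  exact ((hf.differentiable one_ne_zero (x, s * c)).hasFDerivAt).comp_hasDerivAt s h1

lemma gf_deriv {E : EE d × ℝ → ℝ} {P : Fin d → EE d × ℝ → ℝ} (hE : ContDiff ℝ 1 E)
    (hP : ∀ j, ContDiff ℝ 1 (P j)) (φ : EE d → ℝ) (s : ℝ) (x : EE d) :
    HasDerivAt (fun s => gf E P φ s x) (gd E P φ s x) s := by
  have h1 := curve_deriv hE x (φ x) s
  have h2 : HasDerivAt (fun s : ℝ => ∑ j, fderiv ℝ φ x (ei j) * P j (x, s * φ x))
      (∑ j, fderiv ℝ φ x (ei j) * fderiv ℝ (P j) (x, s * φ x) (0, φ x)) s := by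
    apply HasDerivAt.fun_sum
    intro j _
    exact (curve_deriv (hP j) x (φ x) s).const_mul _
  have h3 := h1.add ((hasDerivAt_id s).mul h2)
  refine h3.congr_deriv ?_
  simp only [gd, id_eq, one_mul]

lemma opn_le {f : EE d × ℝ → ℝ} {z : EE d × ℝ} {C : ℝ} (h : ‖fderiv ℝ f z‖ ≤ C) (v : EE d × ℝ) :
    |fderiv ℝ f z v| ≤ C * ‖v‖ := by
  rw [← Real.norm_eq_abs]
  exact ((fderiv ℝ f z).le_opNorm v).trans (mul_le_mul_of_nonneg_right h (norm_nonneg _))

lemma norm_ei (j : Fin d) : ‖(ei j : EE d)‖ = 1 := by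
  simp [ei]

lemma phi_ei {φ : EE d → ℝ} (h1 : ∀ x, ‖fderiv ℝ φ x‖ ≤ 1) (x : EE d) (j : Fin d) :
    |fderiv ℝ φ x (ei j)| ≤ 1 := by
  rw [← Real.norm_eq_abs]
  refine ((fderiv ℝ φ x).le_opNorm _).trans ?_
  rw [norm_ei, mul_one]
  exact h1 x

/-- The conservation law for the flux. -/
theorem flux_const (hV : T_DIV) {E : EE d × ℝ → ℝ} {P : Fin d → EE d × ℝ → ℝ} (hE : Dcl E)
    (hP : ∀ j, Dcl (P j))
    (cons : ∀ z, fderiv ℝ E z ((0 : EE d), (1 : ℝ)) = ∑ j, fderiv ℝ (P j) z (ei j, 0))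
    {φ : EE d → ℝ} {B : ℝ} (hφ : ContDiff ℝ 1 φ) (hB : ∀ x, |φ x| ≤ B)
    (h1 : ∀ x, ‖fderiv ℝ φ x‖ ≤ 1) :
    (∀ s, Integrable (gf E P φ s)) ∧ ∫ x, gf E P φ 1 x = ∫ x, gf E P φ 0 x := by
  have hB0 : 0 ≤ B := (abs_nonneg _).trans (hB 0)
  have hφ' : ∀ j, Continuous fun x => fderiv ℝ φ x (ei j) := fun j =>
    (hφ.continuous_fderiv one_ne_zero).clm_apply continuous_const
  have hγ : ∀ s : ℝ, Continuous fun x : EE d => ((x, s * φ x) : EE d × ℝ) := fun s =>
    continuous_id.prodMk (continuous_const.mul hφ.continuous)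
  -- uniform constants
  have hconst : ∀ S : ℝ, 0 ≤ S → ∃ C : ℝ, 0 ≤ C ∧ ∀ (s : ℝ) (x : EE d), |s| ≤ S →
      |E (x, s * φ x)| ≤ C * wd x ∧ ‖fderiv ℝ E (x, s * φ x)‖ ≤ C * wd x ∧
      ∀ j, |P j (x, s * φ x)| ≤ C * wd x ∧ ‖fderiv ℝ (P j) (x, s * φ x)‖ ≤ C * wd x := by
    intro S hS
    obtain ⟨C, hC, h2⟩ := hE.2 (S * B)
    have h3 := fun j => (hP j).2 (S * B)
    choose C' hC' h4 using h3
    refine ⟨C + ∑ j, C' j, add_nonneg hC (Finset.sum_nonneg fun j _ => hC' j), ?_⟩
    intro s x hs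
    have ht : |s * φ x| ≤ S * B := by
      rw [abs_mul]
      exact mul_le_mul hs (hB x) (abs_nonneg _) hS
    have hw := wd_nonneg x
    have hsum : ∀ j, C' j ≤ ∑ j, C' j := fun j =>
      Finset.single_le_sum (fun j _ => hC' j) (Finset.mem_univ j)
    have hsum0 : 0 ≤ ∑ j, C' j := Finset.sum_nonneg fun j _ => hC' j
    obtain ⟨a1, a2⟩ := h2 x _ ht
    refine ⟨a1.trans (mul_le_mul_of_nonneg_right (by linarith) hw),
      a2.trans (mul_le_mul_of_nonneg_right (by linarith) hw), fun j => ?_⟩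
    obtain ⟨b1, b2⟩ := h4 j x _ ht
    exact ⟨b1.trans (mul_le_mul_of_nonneg_right (by linarith [hsum j]) hw),
      b2.trans (mul_le_mul_of_nonneg_right (by linarith [hsum j]) hw)⟩
  -- continuity
  have hgc : ∀ s, Continuous (gf E P φ s) := by
    intro s
    unfold gf
    refine (hE.1.continuous.comp (hγ s)).add (continuous_const.mul ?_)
    exact continuous_finsetSum _ fun j _ => (hφ' j).mul ((hP j).1.continuous.comp (hγ s))
  have hint : ∀ s, Integrable (gf E P φ s) := by
    intro s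
    obtain ⟨C, hC, h2⟩ := hconst |s| (abs_nonneg s)
    refine ((wd_integrable.const_mul ((1 + |s| * d) * C))).mono' (hgc s).aestronglyMeasurable
      (Eventually.of_forall fun x => ?_)
    obtain ⟨a1, _, a3⟩ := h2 s x le_rfl
    have hw := wd_nonneg x
    rw [Real.norm_eq_abs, gf]
    have h3 : |∑ j, fderiv ℝ φ x (ei j) * P j (x, s * φ x)| ≤ d * (C * wd x) := by
      refine (Finset.abs_sum_le_sum_abs _ _).trans ?_
      have h4 : ∀ j ∈ (Finset.univ : Finset (Fin d)),
          |fderiv ℝ φ x (ei j) * P j (x, s * φ x)| ≤ C * wd x := by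
        intro j _
        rw [abs_mul]
        calc |fderiv ℝ φ x (ei j)| * |P j (x, s * φ x)| ≤ 1 * (C * wd x) :=
              mul_le_mul (phi_ei h1 x j) (a3 j).1 (abs_nonneg _) zero_le_one
          _ = C * wd x := one_mul _
      refine (Finset.sum_le_sum h4).trans ?_
      rw [Finset.sum_const, Finset.card_univ, Fintype.card_fin, nsmul_eq_mul]
    calc |E (x, s * φ x) + s * ∑ j, fderiv ℝ φ x (ei j) * P j (x, s * φ x)| ≤
        |E (x, s * φ x)| + |s| * |∑ j, fderiv ℝ φ x (ei j) * P j (x, s * φ x)| := by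
          rw [← abs_mul]; exact abs_add_le _ _
      _ ≤ C * wd x + |s| * (d * (C * wd x)) :=
          add_le_add a1 (mul_le_mul_of_nonneg_left h3 (abs_nonneg s))
      _ = (1 + |s| * d) * C * wd x := by ring
  refine ⟨hint, ?_⟩
  -- the fields
  set V : ℝ → Fin d → EE d → ℝ := fun s j x => φ x * P j (x, s * φ x) with hVdef
  have hVc : ∀ s j, ContDiff ℝ 1 (V s j) := by
    intro s j
    exact hφ.mul ((hP j).1.comp (contDiff_id.prodMk (contDiff_const.mul hφ)))
  have hVd : ∀ s j x, fderiv ℝ (V s j) x (ei j) = fderiv ℝ φ x (ei j) * P j (x, s * φ x) +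
      φ x * (fderiv ℝ (P j) (x, s * φ x) (ei j, 0) +
        s * fderiv ℝ φ x (ei j) * fderiv ℝ (P j) (x, s * φ x) (0, 1)) := by
    intro s j x
    have d1 : HasFDerivAt φ (fderiv ℝ φ x) x := (hφ.differentiable one_ne_zero x).hasFDerivAt
    have d2 : HasFDerivAt (fun x : EE d => ((x, s * φ x) : EE d × ℝ))
        ((ContinuousLinearMap.id ℝ (EE d)).prod (s • fderiv ℝ φ x)) x :=
      (hasFDerivAt_id x).prodMk (d1.const_mul s)
    have d3 := ((hP j).1.differentiable one_ne_zero (x, s * φ x)).hasFDerivAt.comp x d2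
    have d4 := (d1.mul d3).fderiv
    have e1 : V s j = φ * (P j ∘ fun x : EE d => ((x, s * φ x) : EE d × ℝ)) := rfl
    rw [e1, d4]
    have e2 : ((ei j : EE d), s * fderiv ℝ φ x (ei j)) =
        ((ei j : EE d), (0 : ℝ)) + (s * fderiv ℝ φ x (ei j)) • ((0 : EE d), (1 : ℝ)) := by
      simp
    simp only [_root_.add_apply, _root_.smul_apply, ContinuousLinearMap.comp_apply,
      ContinuousLinearMap.prod_apply, ContinuousLinearMap.id_apply, smul_eq_mul,
      Function.comp_apply]
    rw [e2, map_add, map_smul, smul_eq_mul]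
    ring
  have hVi : ∀ s j, Integrable (V s j) ∧ Integrable fun x => fderiv ℝ (V s j) x (ei j) := by
    intro s j
    obtain ⟨C, hC, h2⟩ := hconst |s| (abs_nonneg s)
    constructor
    · refine (wd_integrable.const_mul (B * C)).mono' (hVc s j).continuous.aestronglyMeasurable
        (Eventually.of_forall fun x => ?_)
      obtain ⟨_, _, a3⟩ := h2 s x le_rfl
      rw [Real.norm_eq_abs, abs_mul, mul_assoc]
      exact mul_le_mul (hB x) (a3 j).1 (abs_nonneg _) hB0
    · have hc : Continuous fun x => fderiv ℝ (V s j) x (ei j) :=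
        ((hVc s j).continuous_fderiv one_ne_zero).clm_apply continuous_const
      refine (wd_integrable.const_mul (C + B * (C + |s| * C))).mono' hc.aestronglyMeasurable
        (Eventually.of_forall fun x => ?_)
      obtain ⟨_, _, a3⟩ := h2 s x le_rfl
      have hw := wd_nonneg x
      rw [Real.norm_eq_abs, hVd]
      have q1 : |fderiv ℝ (P j) (x, s * φ x) (ei j, 0)| ≤ C * wd x := by
        have := opn_le (a3 j).2 ((ei j : EE d), (0 : ℝ))
        have e : ‖((ei j : EE d), (0 : ℝ))‖ = 1 := by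
          rw [Prod.norm_mk, norm_ei, norm_zero]; simp
        rwa [e, mul_one] at this
      have q2 : |fderiv ℝ (P j) (x, s * φ x) (0, 1)| ≤ C * wd x := by
        have := opn_le (a3 j).2 ((0 : EE d), (1 : ℝ))
        have e : ‖((0 : EE d), (1 : ℝ))‖ = 1 := by
          rw [Prod.norm_mk, norm_zero, norm_one]; simp
        rwa [e, mul_one] at this
      have q3 := phi_ei h1 x j
      have q4 : |s * fderiv ℝ φ x (ei j) * fderiv ℝ (P j) (x, s * φ x) (0, 1)| ≤
          |s| * (C * wd x) := by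
        rw [abs_mul, abs_mul]
        calc |s| * |fderiv ℝ φ x (ei j)| * |fderiv ℝ (P j) (x, s * φ x) (0, 1)| ≤
            |s| * 1 * (C * wd x) := by gcongr
          _ = |s| * (C * wd x) := by ring
      calc |fderiv ℝ φ x (ei j) * P j (x, s * φ x) +
            φ x * (fderiv ℝ (P j) (x, s * φ x) (ei j, 0) +
            s * fderiv ℝ φ x (ei j) * fderiv ℝ (P j) (x, s * φ x) (0, 1))| ≤
          |fderiv ℝ φ x (ei j)| * |P j (x, s * φ x)| +
          |φ x| * (|fderiv ℝ (P j) (x, s * φ x) (ei j, 0)| +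
            |s * fderiv ℝ φ x (ei j) * fderiv ℝ (P j) (x, s * φ x) (0, 1)|) := by
            refine (abs_add_le _ _).trans ?_
            rw [abs_mul, abs_mul (φ x)]
            gcongr
            exact abs_add_le _ _
        _ ≤ 1 * (C * wd x) + B * (C * wd x + |s| * (C * wd x)) := by
            gcongr
            · exact (a3 j).1
            · exact hB x
        _ = (C + B * (C + |s| * C)) * wd x := by ring
  -- the derivative of the flux is a divergence
  have hgd : ∀ s x, gd E P φ s x = ∑ j, fderiv ℝ (V s j) x (ei j) := by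
    intro s x
    have e0 : ((0 : EE d), φ x) = φ x • ((0 : EE d), (1 : ℝ)) := by simp
    have e1 : fderiv ℝ E (x, s * φ x) ((0 : EE d), φ x) =
        φ x * ∑ j, fderiv ℝ (P j) (x, s * φ x) (ei j, 0) := by
      rw [e0, map_smul, smul_eq_mul, cons]
    have e2 : ∀ j, fderiv ℝ (P j) (x, s * φ x) ((0 : EE d), φ x) =
        φ x * fderiv ℝ (P j) (x, s * φ x) (0, 1) := by
      intro j
      rw [e0, map_smul, smul_eq_mul]
    rw [gd, e1]
    simp only [e2, hVd]
    rw [Finset.sum_add_distrib, Finset.mul_sum, Finset.mul_sum]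
    have e3 : ∑ j, φ x * (fderiv ℝ (P j) (x, s * φ x) (ei j, 0) +
        s * fderiv ℝ φ x (ei j) * fderiv ℝ (P j) (x, s * φ x) (0, 1)) =
        ∑ j, φ x * fderiv ℝ (P j) (x, s * φ x) (ei j, 0) +
        ∑ j, s * (fderiv ℝ φ x (ei j) * (φ x * fderiv ℝ (P j) (x, s * φ x) (0, 1))) := by
      rw [← Finset.sum_add_distrib]
      refine Finset.sum_congr rfl fun j _ => ?_
      ring
    rw [e3]
    ring
  have hgdi : ∀ s, ∫ x, gd E P φ s x = 0 := by
    intro s
    simp only [hgd]
    rw [integral_finsetSum _ fun j _ => (hVi s j).2]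
    exact Finset.sum_eq_zero fun j _ => hV d j (V s j) (hVc s j) (hVi s j).1 (hVi s j).2
  have hder : ∀ s, HasDerivAt (fun s => ∫ x, gf E P φ s x) 0 s := by
    intro s₀
    obtain ⟨C, hC, h2⟩ := hconst (|s₀| + 1) (by positivity)
    have h := hasDerivAt_integral_of_dominated_loc_of_deriv_le (μ := (volume : Measure (EE d)))
      (F := gf E P φ) (F' := gd E P φ) (x₀ := s₀) (s := Metric.ball s₀ 1)
      (bound := fun x => (B + d + (|s₀| + 1) * (d * B)) * C * wd x)
      (Metric.ball_mem_nhds s₀ one_pos)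
      (Eventually.of_forall fun s => (hgc s).aestronglyMeasurable) (hint s₀) ?_ ?_ ?_ ?_
    · rw [hgdi] at h
      exact h.2
    · have hc : Continuous fun x => gd E P φ s₀ x := by
        simp only [hgd]
        exact continuous_finsetSum _ fun j _ =>
          ((hVc s₀ j).continuous_fderiv one_ne_zero).clm_apply continuous_const
      exact hc.aestronglyMeasurable
    · refine Eventually.of_forall fun x s hs => ?_
      have hs' : |s| ≤ |s₀| + 1 := by
        have h3 : |s - s₀| < 1 := by rwa [Metric.mem_ball, Real.dist_eq] at hs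
        have h4 := abs_add_le (s - s₀) s₀
        rw [sub_add_cancel] at h4
        linarith
      obtain ⟨_, a2, a3⟩ := h2 s x hs'
      have hw := wd_nonneg x
      have hCw : 0 ≤ C * wd x := by positivity
      have hn : ‖((0 : EE d), φ x)‖ ≤ B := by
        rw [Prod.norm_mk, norm_zero, max_eq_right (norm_nonneg _), Real.norm_eq_abs]
        exact hB x
      have q1 : |fderiv ℝ E (x, s * φ x) ((0 : EE d), φ x)| ≤ C * wd x * B :=
        (opn_le a2 _).trans (mul_le_mul_of_nonneg_left hn hCw)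
      have q2 : ∀ j, |fderiv ℝ (P j) (x, s * φ x) ((0 : EE d), φ x)| ≤ C * wd x * B := fun j =>
        (opn_le (a3 j).2 _).trans (mul_le_mul_of_nonneg_left hn hCw)
      have q3 : |∑ j, fderiv ℝ φ x (ei j) * P j (x, s * φ x)| ≤ d * (C * wd x) := by
        refine (Finset.abs_sum_le_sum_abs _ _).trans ?_
        refine (Finset.sum_le_sum (g := fun _ => C * wd x) fun j _ => ?_).trans ?_
        · rw [abs_mul]
          calc |fderiv ℝ φ x (ei j)| * |P j (x, s * φ x)| ≤ 1 * (C * wd x) :=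
                mul_le_mul (phi_ei h1 x j) (a3 j).1 (abs_nonneg _) zero_le_one
            _ = C * wd x := one_mul _
        · rw [Finset.sum_const, Finset.card_univ, Fintype.card_fin, nsmul_eq_mul]
      have q4 : |∑ j, fderiv ℝ φ x (ei j) * fderiv ℝ (P j) (x, s * φ x) ((0 : EE d), φ x)| ≤
          d * (C * wd x * B) := by
        refine (Finset.abs_sum_le_sum_abs _ _).trans ?_
        refine (Finset.sum_le_sum (g := fun _ => C * wd x * B) fun j _ => ?_).trans ?_
        · rw [abs_mul]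
          calc |fderiv ℝ φ x (ei j)| * |fderiv ℝ (P j) (x, s * φ x) ((0 : EE d), φ x)| ≤
                1 * (C * wd x * B) :=
                mul_le_mul (phi_ei h1 x j) (q2 j) (abs_nonneg _) zero_le_one
            _ = C * wd x * B := one_mul _
        · rw [Finset.sum_const, Finset.card_univ, Fintype.card_fin, nsmul_eq_mul]
      rw [Real.norm_eq_abs, gd]
      calc |fderiv ℝ E (x, s * φ x) (0, φ x) + (∑ j, fderiv ℝ φ x (ei j) * P j (x, s * φ x) +
            s * ∑ j, fderiv ℝ φ x (ei j) * fderiv ℝ (P j) (x, s * φ x) (0, φ x))| ≤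
          |fderiv ℝ E (x, s * φ x) (0, φ x)| + (|∑ j, fderiv ℝ φ x (ei j) * P j (x, s * φ x)| +
            |s| * |∑ j, fderiv ℝ φ x (ei j) * fderiv ℝ (P j) (x, s * φ x) (0, φ x)|) := by
            refine (abs_add_le _ _).trans ?_
            gcongr
            rw [← abs_mul]
            exact abs_add_le _ _
        _ ≤ C * wd x * B + (d * (C * wd x) + (|s₀| + 1) * (d * (C * wd x * B))) := by
            gcongr
        _ = (B + d + (|s₀| + 1) * (d * B)) * C * wd x := by ring
    · exact wd_integrable.const_mul _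
    · exact Eventually.of_forall fun x s _ => gf_deriv hE.1 (fun j => (hP j).1) φ s x
  exact is_const_of_deriv_eq_zero (fun s => (hder s).differentiableAt) (fun s => (hder s).deriv) 1 0

end

end Pool.Agent.H19.C1
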