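import Pool.Agent.H19.C1.DIF
import Pool.Agent.H19.C1.FLUX

/-!
# The flux of the energy of a wave through graphs (row FLA)
-/

set_option autoImplicit false

namespace Pool.Agent.H19.C1

open MeasureTheory Set Filter Topology Pool.Agent.H94.C1 Pool.Agent.H82.KL
open scoped ENNReal NNReal

section

variable {d : ℕ}

/-- the real bilinear expressions in two waves -/
noncomputable def RR2 (b₁ b₂ : EE d → ℂ) (z : EE d × ℝ) : ℝ :=
  ((starRingEnd ℂ) (U b₁ z) * U b₂ z).re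

lemma re_conj_comm (x y : ℂ) : ((starRingEnd ℂ) x * y).re = ((starRingEnd ℂ) y * x).re := by
  simp only [Complex.mul_re, Complex.conj_re, Complex.conj_im]
  ring

lemma coord_le (v : EE d × ℝ) (j : Fin d) : ‖((v.1 j : ℝ) : ℂ)‖ ≤ ‖v‖ := by
  rw [Complex.norm_real]
  exact (PiLp.norm_apply_le v.1 j).trans (norm_fst_le v)

/-- Decay of waves and of their derivatives. -/
lemma U_decay (hS : T_SYM) (hD : T_DIF) (hC : T_DEC) (hd : 1 ≤ d) {b : EE d → ℂ} (hb : Sym b)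
    (B : ℝ) : ∃ C : ℝ, 0 ≤ C ∧ ∀ (x : EE d) (t : ℝ), |t| ≤ B → ‖U b (x, t)‖ ≤ C * wd x ∧
      ∀ v : EE d × ℝ, ‖fderiv ℝ (U b) (x, t) v‖ ≤ C * wd x * ‖v‖ := by
  obtain ⟨s1, s2, _⟩ := hS d b hb
  obtain ⟨C0, h0, h0'⟩ := hC d (d + 1) B b hd hb
  obtain ⟨C1, h1, h1'⟩ := hC d (d + 1) B (mn b) hd s2
  have h2 := fun j => hC d (d + 1) B (mc j b) hd (s1 j)
  choose C2 h2 h2' using h2
  have hpi := Real.pi_pos
  have hs0 : 0 ≤ ∑ j, C2 j := Finset.sum_nonneg fun j _ => h2 j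
  refine ⟨C0 + 2 * Real.pi * (∑ j, C2 j + C1), by positivity, fun x t ht => ?_⟩
  have hw := wd_nonneg x
  constructor
  · refine (h0' x t ht).trans ?_
    have h3 : 0 ≤ 2 * Real.pi * (∑ j, C2 j + C1) := by positivity
    exact mul_le_mul_of_nonneg_right (by linarith) hw
  · intro v
    rw [(hD d b hb).2]
    have hpn : ‖2 * (Real.pi : ℂ) * Complex.I‖ = 2 * Real.pi := by
      rw [norm_mul, norm_mul, Complex.norm_I, Complex.norm_real, Real.norm_eq_abs,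
        abs_of_pos Real.pi_pos]
      norm_num
    rw [norm_mul, hpn]
    have q1 : ‖∑ j, ((v.1 j : ℝ) : ℂ) * U (mc j b) (x, t)‖ ≤ ∑ j, ‖v‖ * (C2 j * wd x) := by
      refine (norm_sum_le _ _).trans (Finset.sum_le_sum fun j _ => ?_)
      rw [norm_mul]
      exact mul_le_mul (coord_le v j) (h2' j x t ht) (norm_nonneg _) (norm_nonneg _)
    have q2 : ‖((v.2 : ℝ) : ℂ) * U (mn b) (x, t)‖ ≤ ‖v‖ * (C1 * wd x) := by
      rw [norm_mul, Complex.norm_real]
      exact mul_le_mul (norm_snd_le v) (h1' x t ht) (norm_nonneg _) (norm_nonneg _)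
    have q3 : ∑ j, ‖v‖ * (C2 j * wd x) = ‖v‖ * ((∑ j, C2 j) * wd x) := by
      rw [Finset.sum_mul, Finset.mul_sum]
    have hv := norm_nonneg v
    calc 2 * Real.pi * ‖∑ j, ((v.1 j : ℝ) : ℂ) * U (mc j b) (x, t) +
          ((v.2 : ℝ) : ℂ) * U (mn b) (x, t)‖ ≤
        2 * Real.pi * (‖v‖ * ((∑ j, C2 j) * wd x) + ‖v‖ * (C1 * wd x)) := by
          refine mul_le_mul_of_nonneg_left ?_ (by positivity)
          exact (norm_add_le _ _).trans (add_le_add (q1.trans q3.le) q2)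
      _ = (2 * Real.pi * (∑ j, C2 j + C1)) * wd x * ‖v‖ := by ring
      _ ≤ (C0 + 2 * Real.pi * (∑ j, C2 j + C1)) * wd x * ‖v‖ := by
          gcongr
          linarith

lemma RR2_hasFDerivAt (hD : T_DIF) {b₁ b₂ : EE d → ℂ} (h1 : Sym b₁) (h2 : Sym b₂)
    (z : EE d × ℝ) : ContDiff ℝ 1 (RR2 b₁ b₂) ∧ ∀ v, fderiv ℝ (RR2 b₁ b₂) z v =
      ((starRingEnd ℂ) (fderiv ℝ (U b₁) z v) * U b₂ z +
        (starRingEnd ℂ) (U b₁ z) * fderiv ℝ (U b₂) z v).re := by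
  have c1 := (hD d b₁ h1).1
  have c2 := (hD d b₂ h2).1
  constructor
  · have c3 : ContDiff ℝ 1 fun z => (starRingEnd ℂ) (U b₁ z) :=
      (Complex.conjCLE : ℂ →L[ℝ] ℂ).contDiff.comp c1
    exact Complex.reCLM.contDiff.comp (c3.mul c2)
  · intro v
    have d1 := (c1.differentiable one_ne_zero z).hasFDerivAt
    have d2 := (c2.differentiable one_ne_zero z).hasFDerivAt
    have d3 : HasFDerivAt (fun z => (starRingEnd ℂ) (U b₁ z))
        ((Complex.conjCLE : ℂ →L[ℝ] ℂ).comp (fderiv ℝ (U b₁) z)) z :=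
      ((Complex.conjCLE : ℂ →L[ℝ] ℂ).hasFDerivAt).comp z d1
    have d4 := (Complex.reCLM.hasFDerivAt.comp z (d3.mul d2)).fderiv
    have e1 : RR2 b₁ b₂ = (Complex.reCLM : ℂ → ℝ) ∘ ((fun z => (starRingEnd ℂ) (U b₁ z)) * U b₂) :=
      rfl
    rw [e1, d4]
    simp only [ContinuousLinearMap.comp_apply, _root_.add_apply, _root_.smul_apply,
      smul_eq_mul, Complex.reCLM_apply, ContinuousLinearEquiv.coe_coe, Complex.conjCLE_apply]
    rw [add_comm, mul_comm (U b₂ z)]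

lemma RR2_Dcl (hS : T_SYM) (hD : T_DIF) (hC : T_DEC) (hd : 1 ≤ d) {b₁ b₂ : EE d → ℂ}
    (h1 : Sym b₁) (h2 : Sym b₂) : Dcl (RR2 b₁ b₂) := by
  refine ⟨(RR2_hasFDerivAt hD h1 h2 0).1, fun B => ?_⟩
  obtain ⟨C1, hC1, k1⟩ := U_decay hS hD hC hd h1 B
  obtain ⟨C2, hC2, k2⟩ := U_decay hS hD hC hd h2 B
  refine ⟨2 * (C1 * C2), by positivity, fun x t ht => ?_⟩
  obtain ⟨a1, a2⟩ := k1 x t ht
  obtain ⟨b1, b2⟩ := k2 x t ht
  have hw := wd_nonneg x
  have hw1 := wd_le_one x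
  have hww : wd x * wd x ≤ wd x := mul_le_of_le_one_left hw hw1
  have hCC : 0 ≤ C1 * C2 := by positivity
  have m1 : (C1 * wd x) * (C2 * wd x) ≤ C1 * C2 * wd x := by
    calc (C1 * wd x) * (C2 * wd x) = C1 * C2 * (wd x * wd x) := by ring
      _ ≤ C1 * C2 * wd x := mul_le_mul_of_nonneg_left hww hCC
  constructor
  · refine (Complex.abs_re_le_norm _).trans ?_
    rw [norm_mul, Complex.norm_conj]
    calc ‖U b₁ (x, t)‖ * ‖U b₂ (x, t)‖ ≤ (C1 * wd x) * (C2 * wd x) :=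
          mul_le_mul a1 b1 (norm_nonneg _) (by positivity)
      _ ≤ C1 * C2 * wd x := m1
      _ ≤ 2 * (C1 * C2) * wd x := by nlinarith [mul_nonneg hCC hw]
  · refine ContinuousLinearMap.opNorm_le_bound _ (by positivity) fun v => ?_
    rw [(RR2_hasFDerivAt hD h1 h2 (x, t)).2 v, Real.norm_eq_abs]
    refine (Complex.abs_re_le_norm _).trans ((norm_add_le _ _).trans ?_)
    rw [norm_mul, norm_mul, Complex.norm_conj, Complex.norm_conj]
    have hv := norm_nonneg v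
    calc ‖fderiv ℝ (U b₁) (x, t) v‖ * ‖U b₂ (x, t)‖ +
          ‖U b₁ (x, t)‖ * ‖fderiv ℝ (U b₂) (x, t) v‖ ≤
        (C1 * wd x * ‖v‖) * (C2 * wd x) + (C1 * wd x) * (C2 * wd x * ‖v‖) := by
          gcongr
          · exact a2 v
          · exact b2 v
      _ = 2 * ((C1 * wd x) * (C2 * wd x)) * ‖v‖ := by ring
      _ ≤ 2 * (C1 * C2 * wd x) * ‖v‖ := by gcongr
      _ = 2 * (C1 * C2) * wd x * ‖v‖ := by ring

lemma dU_time (hD : T_DIF) {b : EE d → ℂ} (hb : Sym b) (z : EE d × ℝ) :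
    fderiv ℝ (U b) z ((0 : EE d), (1 : ℝ)) = 2 * (Real.pi : ℂ) * Complex.I * U (mn b) z := by
  rw [(hD d b hb).2]
  simp

lemma dU_space (hD : T_DIF) {b : EE d → ℂ} (hb : Sym b) (z : EE d × ℝ) (j : Fin d) :
    fderiv ℝ (U b) z ((ei j : EE d), (0 : ℝ)) = 2 * (Real.pi : ℂ) * Complex.I * U (mc j b) z := by
  rw [(hD d b hb).2]
  have h1 : ∑ i, (((ei j : EE d) i : ℝ) : ℂ) * U (mc i b) z = U (mc j b) z := by
    rw [Finset.sum_eq_single j]
    · simp [ei]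
    · intro i _ hi
      simp [ei, hi]
    · intro h
      exact absurd (Finset.mem_univ j) h
  simp only [h1]
  simp

lemma mc_mn (b : EE d → ℂ) (j : Fin d) : mc j (mn b) = mn (mc j b) := by
  funext ξ
  simp only [mc, mn]
  ring

/-- The wave equation. -/
lemma wave_eq (hS : T_SYM) {b : EE d → ℂ} (hb : Sym b) (z : EE d × ℝ) :
    U (mn (mn b)) z = ∑ j, U (mc j (mc j b)) z := by
  have hi : ∀ j ∈ (Finset.univ : Finset (Fin d)), Integrable fun ξ : EE d =>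
      e (inner ℝ z.1 ξ + z.2 * ‖ξ‖) * mc j (mc j b) ξ := by
    intro j _
    have h1 := (hS d _ ((hS d b hb).1 j)).1 j
    exact U_integrable _ h1.1.continuous h1.2.1 z
  simp only [U]
  rw [← integral_finsetSum _ hi]
  refine integral_congr_ae (Eventually.of_forall fun ξ => ?_)
  simp only [mn, mc]
  rw [← Finset.mul_sum]
  congr 1
  have h2 : ((‖ξ‖ : ℝ) : ℂ) * ((‖ξ‖ : ℝ) : ℂ) = ∑ j, ((ξ j : ℝ) : ℂ) * ((ξ j : ℝ) : ℂ) := by
    have h3 : ‖ξ‖ * ‖ξ‖ = ∑ j, ξ j * ξ j := by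
      rw [← pow_two, EuclideanSpace.norm_sq_eq]
      refine Finset.sum_congr rfl fun j _ => ?_
      rw [Real.norm_eq_abs, sq_abs, pow_two]
    rw [← Complex.ofReal_mul, h3]
    push_cast
    rfl
  rw [← mul_assoc, h2, Finset.sum_mul]
  refine Finset.sum_congr rfl fun j _ => ?_
  ring

end

theorem pf_FLA (hS : T_SYM) (hD : T_DIF) (hC : T_DEC) (hV : T_DIV) : T_FLA := by
  intro d b φ B hd hb hφ hB h1
  obtain ⟨s1, s2, _⟩ := hS d b hb
  have hE : Dcl fun z => RR2 (mn b) (mn b) z + ∑ j, RR2 (mc j b) (mc j b) z :=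
    Dcl_add (RR2_Dcl hS hD hC hd s2 s2)
      (Dcl_sum _ _ fun j _ => RR2_Dcl hS hD hC hd (s1 j) (s1 j))
  have hP : ∀ j, Dcl fun z => 2 * RR2 (mn b) (mc j b) z := fun j =>
    Dcl_const_mul 2 (RR2_Dcl hS hD hC hd s2 (s1 j))
  have cons : ∀ z, fderiv ℝ (fun z => RR2 (mn b) (mn b) z + ∑ j, RR2 (mc j b) (mc j b) z) z
      ((0 : EE d), (1 : ℝ)) = ∑ j, fderiv ℝ (fun z => 2 * RR2 (mn b) (mc j b) z) z (ei j, 0) := by
    intro z
    have dif : ∀ {b₁ b₂ : EE d → ℂ}, Sym b₁ → Sym b₂ → DifferentiableAt ℝ (RR2 b₁ b₂) z :=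
      fun h1 h2 => (RR2_hasFDerivAt hD h1 h2 z).1.differentiable one_ne_zero z
    have l1 : fderiv ℝ (fun z => RR2 (mn b) (mn b) z + ∑ j, RR2 (mc j b) (mc j b) z) z =
        fderiv ℝ (RR2 (mn b) (mn b)) z + ∑ j, fderiv ℝ (RR2 (mc j b) (mc j b)) z := by
      rw [fderiv_fun_add (dif s2 s2) (DifferentiableAt.fun_sum fun j _ => dif (s1 j) (s1 j)),
        fderiv_fun_sum fun j _ => dif (s1 j) (s1 j)]
    have l2 : ∀ j, fderiv ℝ (fun z => 2 * RR2 (mn b) (mc j b) z) z =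
        (2 : ℝ) • fderiv ℝ (RR2 (mn b) (mc j b)) z := fun j =>
      fderiv_const_mul (dif s2 (s1 j)) 2
    rw [l1]
    simp only [l2, _root_.add_apply, _root_.smul_apply, _root_.sum_apply,
      smul_eq_mul]
    rw [(RR2_hasFDerivAt hD s2 s2 z).2]
    have l3 : ∀ j, fderiv ℝ (RR2 (mc j b) (mc j b)) z ((0 : EE d), (1 : ℝ)) =
        2 * ((starRingEnd ℂ) (2 * (Real.pi : ℂ) * Complex.I * U (mn (mc j b)) z) *
          U (mc j b) z).re := by
      intro j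
      rw [(RR2_hasFDerivAt hD (s1 j) (s1 j) z).2, dU_time hD (s1 j), Complex.add_re,
        re_conj_comm (U (mc j b) z)]
      ring
    have l4 : ∀ j, fderiv ℝ (RR2 (mn b) (mc j b)) z ((ei j : EE d), (0 : ℝ)) =
        ((starRingEnd ℂ) (2 * (Real.pi : ℂ) * Complex.I * U (mn (mc j b)) z) *
          U (mc j b) z).re +
        ((starRingEnd ℂ) (U (mn b) z) *
          (2 * (Real.pi : ℂ) * Complex.I * U (mc j (mc j b)) z)).re := by
      intro j
      rw [(RR2_hasFDerivAt hD s2 (s1 j) z).2, dU_space hD s2, dU_space hD (s1 j), mc_mn,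
        Complex.add_re]
    simp only [l3, l4]
    rw [dU_time hD s2, wave_eq hS hb, Complex.add_re,
      re_conj_comm (2 * (Real.pi : ℂ) * Complex.I * ∑ j, U (mc j (mc j b)) z)]
    have l5 : ((starRingEnd ℂ) (U (mn b) z) *
        (2 * (Real.pi : ℂ) * Complex.I * ∑ j, U (mc j (mc j b)) z)).re =
        ∑ j, ((starRingEnd ℂ) (U (mn b) z) *
          (2 * (Real.pi : ℂ) * Complex.I * U (mc j (mc j b)) z)).re := by
      rw [Finset.mul_sum, Finset.mul_sum, Complex.re_sum]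
    rw [l5]
    simp only [mul_add]
    rw [Finset.sum_add_distrib, ← Finset.mul_sum, ← Finset.mul_sum]
    ring
  have key := flux_const hV hE hP cons hφ hB h1
  have hfl : ∀ s, fl b φ s = gf (fun z => RR2 (mn b) (mn b) z + ∑ j, RR2 (mc j b) (mc j b) z)
      (fun j z => 2 * RR2 (mn b) (mc j b) z) φ s := by
    intro s
    funext x
    have hsq : ∀ w : ℂ, ‖w‖ ^ 2 = ((starRingEnd ℂ) w * w).re := by
      intro w
      rw [← Complex.normSq_eq_norm_sq, Complex.normSq_apply, Complex.mul_re, Complex.conj_re,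
        Complex.conj_im]
      ring
    simp only [fl, gf, en, mo, RR2, hsq]
  rw [hfl 1, hfl 0]
  exact ⟨key.1 1, key.2⟩

end Pool.Agent.H19.C1
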