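import Pool.Agent.H94.C1.Targets

/-!
# Interpolation with change of weight (row INT)
-/

set_option autoImplicit false

namespace Pool.Agent.H19.C1

open MeasureTheory Set Pool.Agent.H94.C1
open scoped ENNReal NNReal

lemma enn_add_sq (a b : ℝ≥0∞) : (a + b) ^ 2 ≤ 2 * (a ^ 2 + b ^ 2) := by
  by_cases ha : a = ⊤
  · subst ha
    simp
  by_cases hb : b = ⊤
  · subst hb
    simp
  lift a to ℝ≥0 using ha
  lift b to ℝ≥0 using hb
  norm_cast
  rw [← NNReal.coe_le_coe]
  push_cast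
  nlinarith [sq_nonneg ((a : ℝ) - b)]

lemma int_rpow_low (θ a : ℝ) (h1 : θ < 1) (ha : 0 < a) :
    ∫⁻ l in Ioc (0 : ℝ) a, ENNReal.ofReal (l ^ (-θ)) = ENNReal.ofReal (a ^ (1 - θ) / (1 - θ)) := by
  have hi : IntegrableOn (fun l : ℝ => l ^ (-θ)) (Ioc 0 a) := by
    have := intervalIntegral.intervalIntegrable_rpow' (a := 0) (b := a) (r := -θ) (by linarith)
    rwa [intervalIntegrable_iff_integrableOn_Ioc_of_le ha.le] at this
  rw [← ofReal_integral_eq_lintegral_ofReal hi]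
  · congr 1
    rw [← intervalIntegral.integral_of_le ha.le, integral_rpow (Or.inl (by linarith))]
    have e : -θ + 1 = 1 - θ := by ring
    rw [e, Real.zero_rpow (by linarith), sub_zero]
  · refine (ae_restrict_iff' measurableSet_Ioc).2 (Filter.Eventually.of_forall fun l hl => ?_)
    exact Real.rpow_nonneg hl.1.le _

lemma int_rpow_high (θ a : ℝ) (h0 : 0 < θ) (ha : 0 < a) :
    ∫⁻ l in Ioi a, ENNReal.ofReal (l ^ (-θ - 1)) = ENNReal.ofReal (a ^ (-θ) / θ) := by
  have hi : IntegrableOn (fun l : ℝ => l ^ (-θ - 1)) (Ioi a) :=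
    integrableOn_Ioi_rpow_of_lt (by linarith) ha
  rw [← ofReal_integral_eq_lintegral_ofReal hi]
  · congr 1
    rw [integral_Ioi_rpow_of_lt (by linarith) ha]
    have e : -θ - 1 + 1 = -θ := by ring
    rw [e, neg_div_neg_eq]
  · refine (ae_restrict_iff' measurableSet_Ioi).2 (Filter.Eventually.of_forall fun l hl => ?_)
    exact Real.rpow_nonneg (ha.trans hl).le _

/-- the kernel -/
noncomputable def Kint (θ : ℝ) (v : ℝ≥0∞) : ℝ≥0∞ :=
  ∫⁻ l in Ioi (0 : ℝ), min 1 (ENNReal.ofReal l * v) * ENNReal.ofReal (l ^ (-θ - 1))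

/-- the constant -/
noncomputable def cint (θ : ℝ) : ℝ≥0∞ := ENNReal.ofReal (1 / (1 - θ) + 1 / θ)

lemma cint_ne_zero (θ : ℝ) (h0 : 0 < θ) (h1 : θ < 1) : cint θ ≠ 0 := by
  rw [cint, ne_eq, ENNReal.ofReal_eq_zero, not_le]
  have : 0 < 1 - θ := by linarith
  positivity

lemma cint_ne_top (θ : ℝ) : cint θ ≠ ⊤ := ENNReal.ofReal_ne_top

lemma Kint_real (θ x : ℝ) (h0 : 0 < θ) (h1 : θ < 1) (hx : 0 < x) :
    Kint θ (ENNReal.ofReal x) = cint θ * ENNReal.ofReal x ^ θ := by
  have ha : 0 < x⁻¹ := inv_pos.2 hx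
  have hsplit : Ioi (0 : ℝ) = Ioc 0 x⁻¹ ∪ Ioi x⁻¹ := (Ioc_union_Ioi_eq_Ioi ha.le).symm
  rw [Kint, hsplit, lintegral_union measurableSet_Ioi (Ioc_disjoint_Ioi le_rfl)]
  have e1 : ∫⁻ l in Ioc (0 : ℝ) x⁻¹, min 1 (ENNReal.ofReal l * ENNReal.ofReal x) *
      ENNReal.ofReal (l ^ (-θ - 1)) = ENNReal.ofReal x *
        ∫⁻ l in Ioc (0 : ℝ) x⁻¹, ENNReal.ofReal (l ^ (-θ)) := by
    rw [← lintegral_const_mul' _ _ ENNReal.ofReal_ne_top]
    refine setLIntegral_congr_fun measurableSet_Ioc fun l hl => ?_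
    have hl0 := hl.1
    have h2 : l * x ≤ 1 := by
      have := mul_le_mul_of_nonneg_right hl.2 hx.le
      rwa [inv_mul_cancel₀ hx.ne'] at this
    have h3 : ENNReal.ofReal l * ENNReal.ofReal x ≤ 1 := by
      rw [← ENNReal.ofReal_mul hl0.le]
      exact ENNReal.ofReal_le_one.2 h2
    have h4 : l * l ^ (-θ - 1) = l ^ (-θ) := by
      nth_rewrite 1 [← Real.rpow_one l]
      rw [← Real.rpow_add hl0]
      congr 1
      ring
    rw [min_eq_right h3, mul_comm (ENNReal.ofReal l), mul_assoc, ← ENNReal.ofReal_mul hl0.le, h4]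
  have e2 : ∫⁻ l in Ioi x⁻¹, min 1 (ENNReal.ofReal l * ENNReal.ofReal x) *
      ENNReal.ofReal (l ^ (-θ - 1)) = ∫⁻ l in Ioi x⁻¹, ENNReal.ofReal (l ^ (-θ - 1)) := by
    refine setLIntegral_congr_fun measurableSet_Ioi fun l hl => ?_
    have hl0 : 0 < l := ha.trans hl
    have h2 : 1 ≤ l * x := by
      have := mul_le_mul_of_nonneg_right (le_of_lt hl) hx.le
      rwa [inv_mul_cancel₀ hx.ne'] at this
    have h3 : 1 ≤ ENNReal.ofReal l * ENNReal.ofReal x := by
      rw [← ENNReal.ofReal_mul hl0.le]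
      exact ENNReal.one_le_ofReal.2 h2
    rw [min_eq_left h3, one_mul]
  have h1θ : 0 < 1 - θ := by linarith
  rw [e1, e2, int_rpow_low θ _ h1 ha, int_rpow_high θ _ h0 ha, ← ENNReal.ofReal_mul hx.le,
    ← ENNReal.ofReal_add (by positivity) (by positivity), cint,
    ENNReal.ofReal_rpow_of_pos hx, ← ENNReal.ofReal_mul (by positivity)]
  congr 1
  have e3 : x * (x⁻¹ ^ (1 - θ)) = x ^ θ := by
    rw [Real.inv_rpow hx.le, ← Real.rpow_neg hx.le]
    nth_rewrite 1 [← Real.rpow_one x]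
    rw [← Real.rpow_add hx]
    congr 1
    ring
  have e4 : x⁻¹ ^ (-θ) = x ^ θ := by
    rw [Real.inv_rpow hx.le, ← Real.rpow_neg hx.le, neg_neg]
  rw [← mul_div_assoc, e3, e4]
  ring

lemma Kint_eq (θ : ℝ) (v : ℝ≥0∞) (h0 : 0 < θ) (h1 : θ < 1) : Kint θ v = cint θ * v ^ θ := by
  by_cases hv0 : v = 0
  · subst hv0
    rw [ENNReal.zero_rpow_of_pos h0, mul_zero, Kint]
    simp
  by_cases hvt : v = ⊤
  · subst hvt
    rw [ENNReal.top_rpow_of_pos h0, ENNReal.mul_top (cint_ne_zero θ h0 h1)]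
    rw [eq_top_iff]
    refine ENNReal.le_of_forall_nnreal_lt fun N _ => ?_
    -- a finite value with large kernel
    set c : ℝ := 1 / (1 - θ) + 1 / θ with hc
    have hcpos : 0 < c := by
      have : 0 < 1 - θ := by linarith
      positivity
    set x : ℝ := (((N : ℝ) + 1) / c) ^ (1 / θ) with hx
    have hN : (0 : ℝ) < (N : ℝ) + 1 := by positivity
    have hxpos : 0 < x := by positivity
    have h3 : Kint θ (ENNReal.ofReal x) ≤ Kint θ ⊤ := by
      refine lintegral_mono fun l => ?_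
      exact mul_le_mul' (min_le_min le_rfl (mul_le_mul' le_rfl le_top)) le_rfl
    refine le_trans ?_ h3
    rw [Kint_real θ x h0 h1 hxpos, cint, ENNReal.ofReal_rpow_of_pos hxpos,
      ← ENNReal.ofReal_mul hcpos.le, hx, ← Real.rpow_mul (by positivity),
      one_div_mul_cancel h0.ne', Real.rpow_one, mul_div_cancel₀ _ hcpos.ne']
    rw [ENNReal.ofReal_add (by positivity) zero_le_one, ENNReal.ofReal_coe_nnreal]
    exact le_self_add
  · have hx : 0 < v.toReal := ENNReal.toReal_pos hv0 hvt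
    have h2 := Kint_real θ v.toReal h0 h1 hx
    rwa [ENNReal.ofReal_toReal hvt] at h2

lemma Kint_scale (θ : ℝ) (r w : ℝ≥0∞) (h0 : 0 < θ) (h1 : θ < 1) (hr0 : r ≠ 0) (hrt : r ≠ ⊤) :
    ∫⁻ l in Ioi (0 : ℝ), min r (ENNReal.ofReal l * w) * ENNReal.ofReal (l ^ (-θ - 1)) =
      cint θ * (r ^ (1 - θ) * w ^ θ) := by
  have e1 : ∀ l : ℝ, min r (ENNReal.ofReal l * w) = r * min 1 (ENNReal.ofReal l * (w / r)) := by
    intro l
    have e2 : ENNReal.ofReal l * w = r * (ENNReal.ofReal l * (w / r)) := by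
      rw [div_eq_mul_inv, mul_comm r, mul_assoc, mul_assoc, ENNReal.inv_mul_cancel hr0 hrt,
        mul_one]
    have e3 : min r (r * (ENNReal.ofReal l * (w / r))) =
        min (r * 1) (r * (ENNReal.ofReal l * (w / r))) := by rw [mul_one]
    rw [e2, e3, ← Monotone.map_min (fun a b hab => mul_le_mul' le_rfl hab :
      Monotone fun x : ℝ≥0∞ => r * x)]
  have e4 : ∫⁻ l in Ioi (0 : ℝ), min r (ENNReal.ofReal l * w) * ENNReal.ofReal (l ^ (-θ - 1)) =
      r * Kint θ (w / r) := by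
    rw [Kint, ← lintegral_const_mul' _ _ hrt]
    refine lintegral_congr fun l => ?_
    rw [e1, mul_assoc]
  rw [e4, Kint_eq θ _ h0 h1, ENNReal.div_rpow_of_nonneg _ _ h0.le, sub_eq_add_neg,
    ENNReal.rpow_add _ _ hr0 hrt, ENNReal.rpow_one, ENNReal.rpow_neg, div_eq_mul_inv]
  ring

theorem pf_INT : T_INT := by
  intro α β _ _ μ ν _ _ θ F f w v A r hθ0 hθ1 hr0 hrt hF hf hw hv hsub h1 h2
  have hc0 := cint_ne_zero θ hθ0 hθ1
  have hct := cint_ne_top θ
  -- the inequality for one `l`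
  have key : ∀ l : ℝ, 0 < l → ∫⁻ z, F univ z ^ 2 * min 1 (ENNReal.ofReal l * v z) ∂ν ≤
      2 * A * ∫⁻ y, f y * min r (ENNReal.ofReal l * w y) ∂μ := by
    intro l hl
    have hlt : ENNReal.ofReal l ≠ ⊤ := ENNReal.ofReal_ne_top
    set S : Set α := {y | r ≤ ENNReal.ofReal l * w y} with hS
    have hSm : MeasurableSet S := measurableSet_le measurable_const (hw.const_mul _)
    have p1 : ∀ z, F univ z ^ 2 * min 1 (ENNReal.ofReal l * v z) ≤
        2 * (F S z ^ 2) + 2 * (ENNReal.ofReal l * (F Sᶜ z ^ 2 * v z)) := by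
      intro z
      have q1 : F univ z ^ 2 ≤ 2 * (F S z ^ 2 + F Sᶜ z ^ 2) :=
        (pow_le_pow_left' (hsub S hSm z) 2).trans (enn_add_sq _ _)
      calc F univ z ^ 2 * min 1 (ENNReal.ofReal l * v z) ≤
          2 * (F S z ^ 2 + F Sᶜ z ^ 2) * min 1 (ENNReal.ofReal l * v z) := mul_le_mul' q1 le_rfl
        _ = 2 * (F S z ^ 2 * min 1 (ENNReal.ofReal l * v z)) +
            2 * (F Sᶜ z ^ 2 * min 1 (ENNReal.ofReal l * v z)) := by ring
        _ ≤ 2 * (F S z ^ 2 * 1) + 2 * (F Sᶜ z ^ 2 * (ENNReal.ofReal l * v z)) :=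
            add_le_add (mul_le_mul' le_rfl (mul_le_mul' le_rfl (min_le_left _ _)))
              (mul_le_mul' le_rfl (mul_le_mul' le_rfl (min_le_right _ _)))
        _ = _ := by ring
    have p2 : ∫⁻ y, f y * min r (ENNReal.ofReal l * w y) ∂μ =
        ∫⁻ y in S, f y * r ∂μ + ∫⁻ y in Sᶜ, f y * (ENNReal.ofReal l * w y) ∂μ := by
      rw [← lintegral_add_compl _ hSm]
      congr 1
      · refine setLIntegral_congr_fun hSm fun y hy => ?_
        rw [min_eq_left hy]
      · refine setLIntegral_congr_fun hSm.compl fun y hy => ?_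
        have hy' : ENNReal.ofReal l * w y < r := not_le.1 hy
        rw [min_eq_right hy'.le]
    have p3 : ∫⁻ y in Sᶜ, f y * (ENNReal.ofReal l * w y) ∂μ =
        ENNReal.ofReal l * ∫⁻ y in Sᶜ, f y * w y ∂μ := by
      rw [← lintegral_const_mul' _ _ hlt]
      refine lintegral_congr fun y => ?_
      ring
    calc ∫⁻ z, F univ z ^ 2 * min 1 (ENNReal.ofReal l * v z) ∂ν ≤
        ∫⁻ z, (2 * (F S z ^ 2) + 2 * (ENNReal.ofReal l * (F Sᶜ z ^ 2 * v z))) ∂ν :=
          lintegral_mono p1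
      _ = 2 * ∫⁻ z, F S z ^ 2 ∂ν + 2 * (ENNReal.ofReal l * ∫⁻ z, F Sᶜ z ^ 2 * v z ∂ν) := by
          rw [lintegral_add_left (((hF S hSm).pow_const 2).const_mul _),
            lintegral_const_mul' _ _ (by norm_num), lintegral_const_mul' _ _ (by norm_num),
            lintegral_const_mul' _ _ hlt]
      _ ≤ 2 * (A * ∫⁻ y in S, f y * r ∂μ) +
          2 * (ENNReal.ofReal l * (A * ∫⁻ y in Sᶜ, f y * w y ∂μ)) :=
          add_le_add (mul_le_mul' le_rfl (h1 S hSm))
            (mul_le_mul' le_rfl (mul_le_mul' le_rfl (h2 Sᶜ hSm.compl)))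
      _ = 2 * A * ∫⁻ y, f y * min r (ENNReal.ofReal l * w y) ∂μ := by
          rw [p2, p3]; ring
  -- integrate over `l`
  have hFm := (hF univ MeasurableSet.univ).pow_const 2
  have left : ∫⁻ l in Ioi (0 : ℝ), (∫⁻ z, F univ z ^ 2 * min 1 (ENNReal.ofReal l * v z) ∂ν) *
      ENNReal.ofReal (l ^ (-θ - 1)) = cint θ * ∫⁻ z, F univ z ^ 2 * v z ^ θ ∂ν := by
    have q1 : ∀ l : ℝ, (∫⁻ z, F univ z ^ 2 * min 1 (ENNReal.ofReal l * v z) ∂ν) *
        ENNReal.ofReal (l ^ (-θ - 1)) = ∫⁻ z, F univ z ^ 2 *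
          (min 1 (ENNReal.ofReal l * v z) * ENNReal.ofReal (l ^ (-θ - 1))) ∂ν := by
      intro l
      rw [← lintegral_mul_const' _ _ ENNReal.ofReal_ne_top]
      refine lintegral_congr fun z => ?_
      ring
    simp only [q1]
    rw [lintegral_lintegral_swap]
    · rw [← lintegral_const_mul' _ _ hct]
      refine lintegral_congr fun z => ?_
      rw [lintegral_const_mul]
      · have := Kint_eq θ (v z) hθ0 hθ1
        rw [Kint] at this
        rw [this]
        ring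
      · fun_prop
    · apply Measurable.aemeasurable
      apply Measurable.mul
      · exact hFm.comp measurable_snd
      · apply Measurable.mul
        · exact measurable_const.min
            ((ENNReal.measurable_ofReal.comp measurable_fst).mul (hv.comp measurable_snd))
        · exact ENNReal.measurable_ofReal.comp (measurable_fst.pow_const _)
  have right : ∫⁻ l in Ioi (0 : ℝ), (2 * A * ∫⁻ y, f y * min r (ENNReal.ofReal l * w y) ∂μ) *
      ENNReal.ofReal (l ^ (-θ - 1)) =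
      cint θ * (2 * A * ∫⁻ y, f y * (r ^ (1 - θ) * w y ^ θ) ∂μ) := by
    have q1 : ∀ l : ℝ, (2 * A * ∫⁻ y, f y * min r (ENNReal.ofReal l * w y) ∂μ) *
        ENNReal.ofReal (l ^ (-θ - 1)) = 2 * A * ∫⁻ y, f y *
          (min r (ENNReal.ofReal l * w y) * ENNReal.ofReal (l ^ (-θ - 1))) ∂μ := by
      intro l
      rw [mul_assoc (2 * A), ← lintegral_mul_const' _ _ ENNReal.ofReal_ne_top]
      congr 1
      refine lintegral_congr fun z => ?_
      ring
    simp only [q1]
    have hm2 : Measurable fun p : ℝ × α => f p.2 *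
        (min r (ENNReal.ofReal p.1 * w p.2) * ENNReal.ofReal (p.1 ^ (-θ - 1))) := by
      apply Measurable.mul
      · exact hf.comp measurable_snd
      · apply Measurable.mul
        · exact measurable_const.min
            ((ENNReal.measurable_ofReal.comp measurable_fst).mul (hw.comp measurable_snd))
        · exact ENNReal.measurable_ofReal.comp (measurable_fst.pow_const _)
    rw [lintegral_const_mul _ (hm2.lintegral_prod_right), lintegral_lintegral_swap
      hm2.aemeasurable]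
    have q2 : ∀ y, ∫⁻ l in Ioi (0 : ℝ), f y *
        (min r (ENNReal.ofReal l * w y) * ENNReal.ofReal (l ^ (-θ - 1))) =
        cint θ * (f y * (r ^ (1 - θ) * w y ^ θ)) := by
      intro y
      rw [lintegral_const_mul]
      · rw [Kint_scale θ r (w y) hθ0 hθ1 hr0 hrt]
        ring
      · fun_prop
    simp only [q2]
    rw [lintegral_const_mul' _ _ hct]
    ring
  have hle : cint θ * ∫⁻ z, F univ z ^ 2 * v z ^ θ ∂ν ≤
      cint θ * (2 * A * ∫⁻ y, f y * (r ^ (1 - θ) * w y ^ θ) ∂μ) := by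
    rw [← left, ← right]
    refine setLIntegral_mono' measurableSet_Ioi fun l hl => ?_
    exact mul_le_mul' (key l hl) le_rfl
  exact (ENNReal.mul_le_mul_iff_right hc0 hct).1 hle

end Pool.Agent.H19.C1
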