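import Pool.Agent.H94.C1.Targets

/-!
# The kernel `|x-y|^(-2)` on sparse sets (row SCH)
-/

set_option autoImplicit false

namespace Pool.Agent.H19.C1

open MeasureTheory Set Metric Pool.Agent.H94.C1 Pool.Agent.H82.KL
open scoped ENNReal NNReal

/-- The kernel integral over a set with dimension bound `a` at scales between `δ` and `1`. -/
lemma sch_bound {d : ℕ} (hd : 3 ≤ d) (a τ A δ : ℝ) (hA : 0 ≤ A) (hτ1 : τ ≤ d - 2)
    (hατ : τ < d - a) (hδ : 0 < δ) (hδ1 : δ ≤ 1) (E : Set (EE d))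
    (hE1 : volume E ≤ ENNReal.ofReal (A * δ ^ ((d : ℝ) - a))) (x : EE d)
    (hE2 : ∀ r : ℝ, δ ≤ r → r ≤ 1 →
      volume (E ∩ ball x r) ≤ ENNReal.ofReal (A * δ ^ ((d : ℝ) - a) * r ^ a)) :
    ∫⁻ y in E, (‖x - y‖ₑ ^ 2)⁻¹ ≤
      ENNReal.ofReal ((A + 2 * A / (d - a - τ) +
        (volume (ball (0 : EE d) 1)).toReal * (2 / (d - 2))) * δ ^ τ) := by
  have hdr : (3 : ℝ) ≤ d := by exact_mod_cast hd
  have hg : 0 < d - a - τ := by linarith
  have hne0 : Nonempty (Fin d) := ⟨⟨0, by omega⟩⟩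
  have hnt : Nontrivial (EE d) := inferInstance
  set c : ℝ := (volume (ball (0 : EE d) 1)).toReal with hcdef
  have hc0 : 0 ≤ c := ENNReal.toReal_nonneg
  have e0 : ∫⁻ y in E, (‖x - y‖ₑ ^ 2)⁻¹ = ∫⁻ y in E, ENNReal.ofReal ((‖x - y‖ ^ 2)⁻¹) := by
    apply lintegral_congr_ae
    have hne : ∀ᵐ y : EE d ∂(volume.restrict E), y ≠ x := by
      apply ae_restrict_of_ae
      rw [ae_iff]
      simp
    filter_upwards [hne] with y hy
    have hy0 : 0 < ‖x - y‖ := norm_pos_iff.mpr (sub_ne_zero.mpr (Ne.symm hy))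
    rw [ENNReal.ofReal_inv_of_pos (by positivity), ENNReal.ofReal_pow (norm_nonneg _), ofReal_norm]
  rw [e0, lintegral_eq_lintegral_meas_lt _
    (ae_of_all _ (fun y => by simp only [Pi.zero_apply]; positivity)) (by fun_prop)]
  have hm : ∀ s : ℝ, 0 < s → {y : EE d | s < (‖x - y‖ ^ 2)⁻¹} ⊆ ball x (s ^ (-(1 / 2) : ℝ)) := by
    intro s hs y hy
    rw [Set.mem_ofPred_eq] at hy
    have hy0 : 0 < ‖x - y‖ ^ 2 := by
      by_contra hcon
      have : ‖x - y‖ ^ 2 = 0 := le_antisymm (not_lt.mp hcon) (by positivity)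
      rw [this, inv_zero] at hy
      linarith
    have h1 : ‖x - y‖ ^ 2 < s⁻¹ := by
      rw [lt_inv_comm₀ hs hy0] at hy
      exact hy
    rw [mem_ball, dist_eq_norm, norm_sub_rev]
    have h2 : (s ^ (-(1 / 2) : ℝ)) ^ 2 = s⁻¹ := by
      rw [← Real.rpow_natCast, ← Real.rpow_mul hs.le]
      norm_num
      rw [Real.rpow_neg_one]
    have h3 : 0 < s ^ (-(1 / 2) : ℝ) := Real.rpow_pos_of_pos hs _
    rw [← h2] at h1
    exact lt_of_pow_lt_pow_left₀ 2 h3.le h1
  set m : ℝ → ENNReal := fun s => (volume.restrict E) {y : EE d | s < (‖x - y‖ ^ 2)⁻¹} with hmdef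
  have hmm : ∀ s, MeasurableSet {y : EE d | s < (‖x - y‖ ^ 2)⁻¹} := fun s =>
    measurableSet_lt measurable_const (by fun_prop)
  have hm1 : ∀ s, m s ≤ volume E := by
    intro s
    rw [hmdef]
    simp only
    rw [Measure.restrict_apply (hmm s)]
    exact measure_mono inter_subset_right
  have hm2 : ∀ s, 0 < s → m s ≤ volume (E ∩ ball x (s ^ (-(1 / 2) : ℝ))) := by
    intro s hs
    rw [hmdef]
    simp only
    rw [Measure.restrict_apply (hmm s)]
    exact measure_mono (fun y hy => ⟨hy.2, hm s hs hy.1⟩)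
  have hd2 : 1 ≤ δ ^ (-2 : ℝ) := by
    rw [Real.rpow_neg hδ.le]
    apply (one_le_inv₀ (by positivity)).mpr
    exact Real.rpow_le_one hδ.le hδ1 (by norm_num)
  have hcover : Ioi (0 : ℝ) ⊆ (Ioc 0 1 ∪ Ioc 1 (δ ^ (-2 : ℝ))) ∪ Ioi (δ ^ (-2 : ℝ)) := by
    intro s hs
    have hs0 : (0 : ℝ) < s := hs
    rcases le_or_gt s 1 with h | h
    · exact Or.inl (Or.inl ⟨hs0, h⟩)
    · rcases le_or_gt s (δ ^ (-2 : ℝ)) with h' | h'
      · exact Or.inl (Or.inr ⟨h, h'⟩)
      · exact Or.inr h'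
  -- piece 1
  have p1 : ∫⁻ s in Ioc (0 : ℝ) 1, m s ≤ ENNReal.ofReal (A * δ ^ τ) := by
    calc ∫⁻ s in Ioc (0 : ℝ) 1, m s ≤
          ∫⁻ s in Ioc (0 : ℝ) 1, ENNReal.ofReal (A * δ ^ ((d : ℝ) - a)) :=
          lintegral_mono (fun s => (hm1 s).trans hE1)
      _ = ENNReal.ofReal (A * δ ^ ((d : ℝ) - a)) := by simp
      _ ≤ _ := by
          apply ENNReal.ofReal_le_ofReal
          apply mul_le_mul_of_nonneg_left _ hA
          exact Real.rpow_le_rpow_of_exponent_ge hδ hδ1 (by linarith)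
  -- piece 2
  set β : ℝ := (a - (d - 2) + τ) / 2 with hβ
  have hβ1 : β < 1 := by rw [hβ]; linarith
  have p2 : ∫⁻ s in Ioc (1 : ℝ) (δ ^ (-2 : ℝ)), m s ≤
      ENNReal.ofReal (2 * A / (d - a - τ) * δ ^ τ) := by
    have hpt : ∀ s ∈ Ioc (1 : ℝ) (δ ^ (-2 : ℝ)),
        m s ≤ ENNReal.ofReal (A * δ ^ ((d : ℝ) - a) * s ^ (-β)) := by
      intro s hs
      have hs0 : 0 < s := lt_trans one_pos hs.1
      have hr1 : s ^ (-(1 / 2) : ℝ) ≤ 1 :=
        Real.rpow_le_one_of_one_le_of_nonpos hs.1.le (by norm_num)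
      have hr2 : δ ≤ s ^ (-(1 / 2) : ℝ) := by
        have : (δ ^ (-2 : ℝ)) ^ (-(1 / 2) : ℝ) = δ := by
          rw [← Real.rpow_mul hδ.le]; norm_num
        calc δ = (δ ^ (-2 : ℝ)) ^ (-(1 / 2) : ℝ) := this.symm
          _ ≤ s ^ (-(1 / 2) : ℝ) := Real.rpow_le_rpow_of_nonpos hs0 hs.2 (by norm_num)
      refine (hm2 s hs0).trans ((hE2 _ hr2 hr1).trans ?_)
      apply ENNReal.ofReal_le_ofReal
      apply mul_le_mul_of_nonneg_left _ (by positivity)
      rw [← Real.rpow_mul hs0.le]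
      apply Real.rpow_le_rpow_of_exponent_le hs.1.le
      rw [hβ]; linarith
    have hii : IntervalIntegrable (fun s : ℝ => A * δ ^ ((d : ℝ) - a) * s ^ (-β)) volume 0
        (δ ^ (-2 : ℝ)) :=
      (intervalIntegral.intervalIntegrable_rpow' (by linarith)).const_mul _
    have hd0 : (0 : ℝ) ≤ δ ^ (-2 : ℝ) := by positivity
    have hio : IntegrableOn (fun s : ℝ => A * δ ^ ((d : ℝ) - a) * s ^ (-β))
        (Ioc 0 (δ ^ (-2 : ℝ))) :=
      (intervalIntegrable_iff_integrableOn_Ioc_of_le hd0).mp hii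
    calc ∫⁻ s in Ioc (1 : ℝ) (δ ^ (-2 : ℝ)), m s
        ≤ ∫⁻ s in Ioc (1 : ℝ) (δ ^ (-2 : ℝ)), ENNReal.ofReal (A * δ ^ ((d : ℝ) - a) * s ^ (-β)) :=
          setLIntegral_mono' measurableSet_Ioc hpt
      _ ≤ ∫⁻ s in Ioc (0 : ℝ) (δ ^ (-2 : ℝ)), ENNReal.ofReal (A * δ ^ ((d : ℝ) - a) * s ^ (-β)) :=
          lintegral_mono_set (Ioc_subset_Ioc_left (by norm_num))
      _ = ENNReal.ofReal (∫ s in Ioc (0 : ℝ) (δ ^ (-2 : ℝ)), A * δ ^ ((d : ℝ) - a) * s ^ (-β)) := by
          rw [ofReal_integral_eq_lintegral_ofReal hio]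
          filter_upwards [ae_restrict_mem measurableSet_Ioc] with s hs
          have : 0 < s := hs.1
          simp only [Pi.zero_apply]
          positivity
      _ = _ := by
          congr 1
          rw [← intervalIntegral.integral_of_le hd0, intervalIntegral.integral_const_mul,
            integral_rpow (Or.inl (by linarith)), Real.zero_rpow (by linarith), sub_zero,
            ← Real.rpow_mul hδ.le]
          have e3 : -β + 1 = (d - a - τ) / 2 := by rw [hβ]; ring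
          rw [e3]
          have e4 : δ ^ ((d : ℝ) - a) * δ ^ (-2 * ((d - a - τ) / 2)) = δ ^ τ := by
            rw [← Real.rpow_add hδ]
            congr 1
            ring
          calc A * δ ^ ((d : ℝ) - a) * (δ ^ (-2 * ((d - a - τ) / 2)) / ((d - a - τ) / 2))
              = 2 * A / (d - a - τ) * (δ ^ ((d : ℝ) - a) * δ ^ (-2 * ((d - a - τ) / 2))) := by
                field_simp
            _ = _ := by rw [e4]
  -- piece 3
  have p3 : ∫⁻ s in Ioi (δ ^ (-2 : ℝ)), m s ≤ ENNReal.ofReal (c * (2 / (d - 2)) * δ ^ τ) := by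
    have hc : (0 : ℝ) < δ ^ (-2 : ℝ) := by positivity
    have hpt : ∀ s ∈ Ioi (δ ^ (-2 : ℝ)), m s ≤ ENNReal.ofReal (c * s ^ (-((d : ℝ) / 2))) := by
      intro s hs
      have hs0 : 0 < s := lt_trans hc hs
      have hr0 : 0 < s ^ (-(1 / 2) : ℝ) := Real.rpow_pos_of_pos hs0 _
      refine (hm2 s hs0).trans ((measure_mono inter_subset_right).trans (le_of_eq ?_))
      have hfin : volume (ball (0 : EE d) 1) ≠ ⊤ := measure_ball_lt_top.ne
      rw [Measure.addHaar_ball _ _ hr0.le, ← ENNReal.ofReal_toReal hfin, ← hcdef,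
        ← ENNReal.ofReal_mul (by positivity), finrank_euclideanSpace, Fintype.card_fin]
      congr 1
      rw [mul_comm, ← Real.rpow_natCast, ← Real.rpow_mul hs0.le]
      congr 2
      ring
    have hio : IntegrableOn (fun s : ℝ => c * s ^ (-((d : ℝ) / 2))) (Ioi (δ ^ (-2 : ℝ))) :=
      (integrableOn_Ioi_rpow_of_lt (by linarith) hc).const_mul _
    calc ∫⁻ s in Ioi (δ ^ (-2 : ℝ)), m s
        ≤ ∫⁻ s in Ioi (δ ^ (-2 : ℝ)), ENNReal.ofReal (c * s ^ (-((d : ℝ) / 2))) :=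
          setLIntegral_mono' measurableSet_Ioi hpt
      _ = ENNReal.ofReal (∫ s in Ioi (δ ^ (-2 : ℝ)), c * s ^ (-((d : ℝ) / 2))) := by
          rw [ofReal_integral_eq_lintegral_ofReal hio]
          filter_upwards [ae_restrict_mem measurableSet_Ioi] with s hs
          have : 0 < s := lt_trans hc hs
          simp only [Pi.zero_apply]
          positivity
      _ = ENNReal.ofReal (c * (2 / (d - 2)) * δ ^ ((d : ℝ) - 2)) := by
          congr 1
          rw [integral_const_mul, integral_Ioi_rpow_of_lt (by linarith) hc,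
            ← Real.rpow_mul hδ.le]
          have e5 : -2 * (-((d : ℝ) / 2) + 1) = (d : ℝ) - 2 := by ring
          rw [e5]
          have h6 : (d : ℝ) - 2 ≠ 0 := by linarith
          have h7 : -((d : ℝ) / 2) + 1 ≠ 0 := by
            intro h; apply h6; linarith
          have e6 : -δ ^ ((d : ℝ) - 2) / (-((d : ℝ) / 2) + 1) =
              2 / (d - 2) * δ ^ ((d : ℝ) - 2) := by
            rw [div_eq_iff h7]
            field_simp
            ring
          rw [e6]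
          ring
      _ ≤ _ := by
          apply ENNReal.ofReal_le_ofReal
          apply mul_le_mul_of_nonneg_left _
            (mul_nonneg hc0 (div_nonneg (by norm_num) (by linarith)))
          exact Real.rpow_le_rpow_of_exponent_ge hδ hδ1 hτ1
  have hτ0 : 0 ≤ δ ^ τ := by positivity
  have h2A : 0 ≤ 2 * A / (d - a - τ) := by positivity
  have h3A : 0 ≤ c * (2 / ((d : ℝ) - 2)) :=
    mul_nonneg hc0 (div_nonneg (by norm_num) (by linarith))
  calc ∫⁻ s in Ioi (0 : ℝ), m s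
      ≤ ∫⁻ s in (Ioc 0 1 ∪ Ioc 1 (δ ^ (-2 : ℝ))) ∪ Ioi (δ ^ (-2 : ℝ)), m s :=
        lintegral_mono_set hcover
    _ ≤ ((∫⁻ s in Ioc (0 : ℝ) 1, m s) + ∫⁻ s in Ioc 1 (δ ^ (-2 : ℝ)), m s) +
        ∫⁻ s in Ioi (δ ^ (-2 : ℝ)), m s :=
        (lintegral_union_le _ _ _).trans (add_le_add (lintegral_union_le _ _ _) le_rfl)
    _ ≤ (ENNReal.ofReal (A * δ ^ τ) + ENNReal.ofReal (2 * A / (d - a - τ) * δ ^ τ)) +
        ENNReal.ofReal (c * (2 / (d - 2)) * δ ^ τ) := add_le_add (add_le_add p1 p2) p3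
    _ = _ := by
        rw [← ENNReal.ofReal_add (by positivity) (by positivity),
          ← ENNReal.ofReal_add (by positivity) (mul_nonneg h3A hτ0)]
        congr 1
        ring

theorem pf_SCH : T_SCH := by
  intro d a τ A hd hA hτ1 hατ
  have hdr : (3 : ℝ) ≤ d := by exact_mod_cast hd
  refine ⟨(A + 2 * A / (d - a - τ) +
        (volume (ball (0 : EE d) 1)).toReal * (2 / (d - 2))).toNNReal, ?_⟩
  intro δ E x hδ hδ1 hE1 hE2
  refine (sch_bound hd a τ A δ hA hτ1 hατ hδ hδ1 E hE1 x hE2).trans (le_of_eq ?_)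
  have hg : 0 < d - a - τ := by linarith
  have h3A : 0 ≤ (volume (ball (0 : EE d) 1)).toReal * (2 / ((d : ℝ) - 2)) :=
    mul_nonneg ENNReal.toReal_nonneg (div_nonneg (by norm_num) (by linarith))
  have h2A : 0 ≤ 2 * A / (d - a - τ) := by positivity
  rw [ENNReal.ofReal_mul (by positivity)]
  rfl

end Pool.Agent.H19.C1
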