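import Pool.Agent.H94.C1.Targets

/-!
# The sum over the frequencies (row SUM)
-/

set_option autoImplicit false

namespace Pool.Agent.H19.C1

open MeasureTheory Set Pool.Agent.H94.C1
open scoped ENNReal NNReal

lemma sum_summable (r : ℝ) (h0 : 0 ≤ r) (h1 : r < 1) :
    Summable fun m : ℤ => r ^ m.natAbs := by
  apply Summable.of_nat_of_neg
  · simpa using summable_geometric_of_lt_one h0 h1
  · simpa using summable_geometric_of_lt_one h0 h1

lemma sum_term (s κ c x : ℝ) (m : ℤ) (hs : c ≤ s) (hκ : c ≤ κ) (hc : 0 < c)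
    (h1 : (2 : ℝ) ^ m ≤ x) (h2 : x ≤ (2 : ℝ) ^ (m + 1)) :
    min (x ^ s) (x ^ (-κ)) ≤ (2 : ℝ) ^ c * ((2 : ℝ) ^ (-c)) ^ m.natAbs := by
  have hx : 0 < x := lt_of_lt_of_le (by positivity) h1
  have e0 : ((2 : ℝ) ^ (-c)) ^ m.natAbs = (2 : ℝ) ^ (-(c * (m.natAbs : ℝ))) := by
    rw [← Real.rpow_natCast, ← Real.rpow_mul (by norm_num)]
    congr 1
    ring
  rw [e0, ← Real.rpow_add (by norm_num)]
  rcases le_or_gt 0 m with hm | hm
  · refine (min_le_right _ _).trans ?_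
    have h3 : x ^ (-κ) ≤ ((2 : ℝ) ^ m) ^ (-κ) :=
      Real.rpow_le_rpow_of_nonpos (by positivity) h1 (by linarith)
    refine h3.trans ?_
    rw [← Real.rpow_intCast, ← Real.rpow_mul (by norm_num)]
    apply Real.rpow_le_rpow_of_exponent_le (by norm_num)
    have hmr : (m.natAbs : ℝ) = m := by
      rw [Nat.cast_natAbs, abs_of_nonneg hm]
    have hm0 : (0 : ℝ) ≤ m := by exact_mod_cast hm
    rw [hmr]
    nlinarith
  · refine (min_le_left _ _).trans ?_
    have h3 : x ^ s ≤ ((2 : ℝ) ^ (m + 1)) ^ s := Real.rpow_le_rpow hx.le h2 (by linarith)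
    refine h3.trans ?_
    rw [← Real.rpow_intCast, ← Real.rpow_mul (by norm_num)]
    apply Real.rpow_le_rpow_of_exponent_le (by norm_num)
    have hmr : (m.natAbs : ℝ) = -m := by
      rw [Nat.cast_natAbs, abs_of_neg hm, Int.cast_neg]
    have hm0 : ((m + 1 : ℤ) : ℝ) ≤ 0 := by exact_mod_cast (by omega : m + 1 ≤ 0)
    rw [hmr]
    push_cast at hm0 ⊢
    nlinarith

theorem pf_SUM : T_SUM := by
  intro s K hs hK
  set c : ℝ := min s (K - s) with hc
  have hc0 : 0 < c := lt_min hs (by linarith)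
  set r : ℝ := (2 : ℝ) ^ (-c) with hr
  have hr0 : 0 ≤ r := by positivity
  have hr1 : r < 1 := Real.rpow_lt_one_of_one_lt_of_neg (by norm_num) (by linarith)
  have hsum : Summable fun m : ℤ => (2 : ℝ) ^ c * r ^ m.natAbs := (sum_summable r hr0 hr1).mul_left _
  refine ⟨(∑' m : ℤ, (2 : ℝ) ^ c * r ^ m.natAbs).toNNReal, ?_⟩
  intro δ hδ _
  obtain ⟨n, hn1, hn2⟩ := exists_mem_Ico_zpow hδ (by norm_num : (1 : ℝ) < 2)
  have hinj : Function.Injective fun j : ℕ => ((j : ℤ) + 1 + n) := by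
    intro i j hij
    simp only at hij
    omega
  calc ∑' j : ℕ, ENNReal.ofReal (min (((2 : ℝ) ^ (j + 1) * δ) ^ s)
        (((2 : ℝ) ^ (j + 1) * δ) ^ (s - K))) ≤
        ∑' j : ℕ, ENNReal.ofReal ((2 : ℝ) ^ c * r ^ ((j : ℤ) + 1 + n).natAbs) := by
        refine ENNReal.tsum_le_tsum fun j => ENNReal.ofReal_le_ofReal ?_
        have e1 : s - K = -((K : ℝ) - s) := by ring
        rw [e1]
        have hp : (0 : ℝ) < 2 ^ (j + 1) := by positivity
        have e2 : (2 : ℝ) ^ ((j : ℤ) + 1 + n) = 2 ^ (j + 1) * 2 ^ n := by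
          rw [zpow_add₀ (by norm_num)]
          norm_cast
        have e3 : (2 : ℝ) ^ ((j : ℤ) + 1 + n + 1) = 2 ^ (j + 1) * 2 ^ (n + 1) := by
          rw [show (j : ℤ) + 1 + n + 1 = ((j + 1 : ℕ) : ℤ) + (n + 1) by push_cast; ring,
            zpow_add₀ (by norm_num)]
          norm_cast
        apply sum_term s ((K : ℝ) - s) c _ _ (min_le_left _ _) (min_le_right _ _) hc0
        · rw [e2]
          exact mul_le_mul_of_nonneg_left hn1 hp.le
        · rw [e3]
          exact mul_le_mul_of_nonneg_left hn2.le hp.le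
    _ ≤ ∑' m : ℤ, ENNReal.ofReal ((2 : ℝ) ^ c * r ^ m.natAbs) :=
        ENNReal.tsum_comp_le_tsum_of_injective hinj
          (fun m : ℤ => ENNReal.ofReal ((2 : ℝ) ^ c * r ^ m.natAbs))
    _ = ENNReal.ofReal (∑' m : ℤ, (2 : ℝ) ^ c * r ^ m.natAbs) :=
        (ENNReal.ofReal_tsum_of_nonneg (fun m => by positivity) hsum).symm
    _ = ((∑' m : ℤ, (2 : ℝ) ^ c * r ^ m.natAbs).toNNReal : ℝ≥0∞) := rfl

end Pool.Agent.H19.C1
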