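import Pool.Agent.H94.C1.Targets
import Pool.Agent.H19.LS.PLE

/-!
# Waves with compactly supported initial positions (row WF)
-/

set_option autoImplicit false

namespace Pool.Agent.H19.C1.WF

open MeasureTheory Set Filter Topology FourierTransform Pool.Agent.H94.C1 Pool.Agent.H82.KL
open scoped ENNReal NNReal

variable {d : ℕ}

lemma e_cont : Continuous e := by
  unfold e
  fun_prop

lemma e_norm (x : ℝ) : ‖e x‖ = 1 := by
  rw [e]
  exact Complex.norm_exp_ofReal_mul_I _

lemma e_add (x y : ℝ) : e (x + y) = e x * e y := by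
  unfold e
  rw [← Complex.exp_add]
  congr 1
  push_cast
  ring

lemma fourier_e (f : EE d → ℂ) (w : EE d) : 𝓕 f w = ∫ v, e (-(inner ℝ v w)) * f v := by
  rw [Real.fourier_eq']
  congr 1
  funext v
  unfold e
  rw [smul_eq_mul]
  congr 3
  push_cast
  ring

/-- Bounded functions with bounded support are integrable. -/
lemma bc_int {F : Type} [NormedAddCommGroup F] (g : EE d → F) (hm : AEStronglyMeasurable g)
    (A R : ℝ) (hA : ∀ y, ‖g y‖ ≤ A) (hR : ∀ y, R < ‖y‖ → g y = 0) : Integrable g := by
  have h1 : Integrable ((Metric.closedBall (0 : EE d) R).indicator fun _ => A) := by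
    rw [integrable_indicator_iff measurableSet_closedBall]
    exact integrableOn_const (by exact (isCompact_closedBall _ _).measure_lt_top.ne)
      (by simp)
  refine h1.mono' hm (Eventually.of_forall fun y => ?_)
  by_cases h : y ∈ Metric.closedBall (0 : EE d) R
  · rw [indicator_of_mem h]
    exact hA y
  · rw [indicator_of_notMem h]
    have h2 : R < ‖y‖ := by
      rw [Metric.mem_closedBall, dist_zero_right, not_le] at h
      exact h
    rw [hR y h2, norm_zero]

lemma pow_int (f : EE d → ℂ) (hf : BC f) (n : ℕ) : Integrable fun v => ‖v‖ ^ n * ‖f v‖ := by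
  obtain ⟨hm, ⟨A, hA⟩, ⟨R, hR⟩⟩ := hf
  have hA0 : 0 ≤ A := (norm_nonneg _).trans (hA 0)
  refine bc_int _ ?_ (|R| ^ n * A) R ?_ ?_
  · exact ((measurable_norm.pow_const n).mul hm.norm).aestronglyMeasurable
  · intro y
    by_cases h : R < ‖y‖
    · rw [hR y h, norm_zero, mul_zero, norm_zero]
      positivity
    · rw [norm_mul, norm_norm, norm_pow, norm_norm]
      have h2 : ‖y‖ ≤ |R| := (not_lt.1 h).trans (le_abs_self R)
      exact mul_le_mul (pow_le_pow_left₀ (norm_nonneg _) h2 n) (hA y) (norm_nonneg _)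
        (by positivity)
  · intro y h
    rw [hR y h, norm_zero, mul_zero]

lemma f_int (f : EE d → ℂ) (hf : BC f) : Integrable f := by
  obtain ⟨hm, ⟨A, hA⟩, ⟨R, hR⟩⟩ := hf
  exact bc_int f hm.aestronglyMeasurable A R hA hR

lemma f_memLp (f : EE d → ℂ) (hf : BC f) : MemLp f 2 := by
  have hi := f_int f hf
  obtain ⟨hm, ⟨A, hA⟩, ⟨R, hR⟩⟩ := hf
  apply Pool.Agent.H19.LS.memLp_two_of f hm.aestronglyMeasurable
  have h1 : ∫⁻ y, ‖f y‖ₑ ^ 2 ≤ ENNReal.ofReal A * ∫⁻ y, ‖f y‖ₑ := by
    rw [← lintegral_const_mul' _ _ ENNReal.ofReal_ne_top]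
    refine lintegral_mono fun y => ?_
    rw [pow_two]
    refine mul_le_mul' ?_ le_rfl
    rw [← ofReal_norm]
    exact ENNReal.ofReal_le_ofReal (hA y)
  refine ne_top_of_le_ne_top ?_ h1
  exact ENNReal.mul_ne_top ENNReal.ofReal_ne_top hi.2.ne

theorem main : T_WF := by
  intro d f hf
  have hfi := f_int f hf
  refine ⟨?_, ?_, ?_, ?_⟩
  · exact Real.contDiff_fourier fun n _ => pow_int f hf n
  · exact Pool.Agent.H19.LS.plancherelE f hfi (f_memLp f hf)
  · intro j ξ
    have hv : Integrable fun v => ‖v‖ * ‖f v‖ := by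
      simpa using pow_int f hf 1
    rw [Real.fderiv_fourier hfi hv]
    have hi : Integrable (VectorFourier.fourierSMulRight (innerSL ℝ) f) := by
      refine Integrable.mono' (hv.const_mul (2 * Real.pi * ‖(innerSL ℝ : EE d →L[ℝ] EE d →L[ℝ] ℝ)‖))
        ?_ (Eventually.of_forall fun v => ?_)
      · exact hfi.1.fourierSMulRight
      · have := VectorFourier.norm_fourierSMulRight_le (innerSL ℝ : EE d →L[ℝ] EE d →L[ℝ] ℝ) f v
        linarith
    rw [Real.fourier_continuousLinearMap_apply hi]
    have h1 : (fun x : EE d => VectorFourier.fourierSMulRight (innerSL ℝ) f x (ei j)) =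
        fun x => (-(2 * (Real.pi : ℂ) * Complex.I)) * (((x j : ℝ) : ℂ) * f x) := by
      funext x
      rw [VectorFourier.fourierSMulRight_apply]
      have h2 : (innerSL ℝ x) (ei j : EE d) = x j := by
        rw [innerSL_apply_apply, ei, EuclideanSpace.inner_single_right]
        simp
      rw [h2, smul_eq_mul, Complex.real_smul]
    rw [h1, fourier_e, fourier_e, ← integral_const_mul]
    refine integral_congr_ae (Eventually.of_forall fun v => ?_)
    simp only
    ring
  · intro a z ha
    have hai : Integrable a := ha.1.continuous.integrable_of_hasCompactSupport ha.2.1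
    have hm := hf.1
    rw [W, U]
    have e1 : ∀ y : EE d, U a (z.1 - y, z.2) * f y =
        ∫ ξ, e (inner ℝ (z.1 - y) ξ + z.2 * ‖ξ‖) * a ξ * f y := by
      intro y
      rw [U, ← integral_mul_const]
    simp only [e1]
    rw [integral_integral_swap]
    · refine integral_congr_ae (Eventually.of_forall fun ξ => ?_)
      simp only
      rw [fourier_e, ← integral_const_mul, ← integral_const_mul]
      refine integral_congr_ae (Eventually.of_forall fun y => ?_)
      simp only
      have e2 : inner ℝ (z.1 - y) ξ + z.2 * ‖ξ‖ =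
          (inner ℝ z.1 ξ + z.2 * ‖ξ‖) + -(inner ℝ y ξ) := by
        rw [inner_sub_left]; ring
      rw [e2, e_add]
      ring
    · have h1 : Integrable (fun p : EE d × EE d => ‖f p.1‖ * ‖a p.2‖)
          ((volume : Measure (EE d)).prod volume) := hfi.norm.mul_prod hai.norm
      refine h1.mono' ?_ (Eventually.of_forall fun p => ?_)
      · have h2 : Continuous fun p : EE d × EE d =>
            e (inner ℝ (z.1 - p.1) p.2 + z.2 * ‖p.2‖) * a p.2 :=
          (e_cont.comp (by fun_prop)).mul (ha.1.continuous.comp continuous_snd)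
        exact (h2.measurable.mul (hm.comp measurable_fst)).aestronglyMeasurable
      · simp only [Function.uncurry]
        rw [norm_mul, norm_mul, e_norm, one_mul, mul_comm]

end Pool.Agent.H19.C1.WF

open Pool.Agent.H94.C1 in
theorem Pool.Agent.H19.C1.pf_WF : T_WF := Pool.Agent.H19.C1.WF.main
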